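import Pool.Agent.TH385.KK.Final

/-!
Monotone families: transfer from sets of points to families of finite sets.
-/

set_option autoImplicit false
set_option linter.unusedSectionVars false

noncomputable section

namespace Pool.Agent.TH385.KK

open Finset

variable {n : ℕ}

/-- support of a point. -/
def toF (x : Fin n → Bool) : Finset (Fin n) := Finset.univ.filter (fun i => x i = true)

/-- indicator of a set. -/
def ofF (s : Finset (Fin n)) : Fin n → Bool := fun i => decide (i ∈ s)

lemma mem_toF (x : Fin n → Bool) (i : Fin n) : i ∈ toF x ↔ x i = true := by simp [toF]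

lemma toF_ofF (s : Finset (Fin n)) : toF (ofF s) = s := by
  ext i; simp [mem_toF, ofF]

lemma ofF_toF (x : Fin n → Bool) : ofF (toF x) = x := by
  funext i
  unfold ofF
  rw [Bool.eq_iff_iff]
  simp [mem_toF]

lemma toF_inj {x y : Fin n → Bool} (h : toF x = toF y) : x = y := by
  rw [← ofF_toF x, h, ofF_toF]

lemma toF_fl (i : Fin n) (x : Fin n → Bool) : toF (fl i x) = symmDiff (toF x) {i} := by
  ext j
  rw [Finset.mem_symmDiff, mem_toF, mem_toF, Finset.mem_singleton]
  by_cases h : j = i
  · subst h; rw [fl_same]; cases x j <;> simp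
  · rw [fl_ne h]; simp [h]

/-- transferred family. -/
def tr (A : Finset (Finset (Fin n))) : Finset (Fin n → Bool) :=
  Finset.univ.filter (fun x => toF x ∈ A)

lemma mem_tr (A : Finset (Finset (Fin n))) (x : Fin n → Bool) : x ∈ tr A ↔ toF x ∈ A := by
  simp [tr]

lemma card_tr_filter (A : Finset (Finset (Fin n))) (p : Finset (Fin n) → Prop)
    (q : (Fin n → Bool) → Prop) [DecidablePred p] [DecidablePred q]
    (h : ∀ x, q x ↔ p (toF x)) : ((tr A).filter q).card = (A.filter p).card := by
  apply Finset.card_bij (fun x _ => toF x)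
  · intro x hx
    rw [Finset.mem_filter, mem_tr, h] at hx
    exact Finset.mem_filter.2 hx
  · intro x _ y _ hxy
    exact toF_inj hxy
  · intro s hs
    refine ⟨ofF s, ?_, toF_ofF s⟩
    rw [Finset.mem_filter, mem_tr, h, toF_ofF]
    exact Finset.mem_filter.1 hs

lemma card_tr (A : Finset (Finset (Fin n))) : (tr A).card = A.card := by
  have := card_tr_filter A (fun _ => True) (fun _ => True) (fun _ => Iff.rfl)
  simpa using this

lemma bd_tr (A : Finset (Finset (Fin n))) :
    ((A ×ˢ (Finset.univ : Finset (Fin n))).filter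
      (fun p => symmDiff p.1 {p.2} ∉ A)).card = bd (tr A) := by
  unfold bd
  rw [Finset.card_filter, Finset.sum_product_right]
  refine Finset.sum_congr rfl (fun j _ => ?_)
  rw [← Finset.card_filter, card_tr_filter A (fun s => symmDiff s {j} ∉ A)]
  intro x
  rw [mem_tr, toF_fl]

lemma up_card {A : Finset (Finset (Fin n))} (hA : IsUpperSet (A : Set (Finset (Fin n))))
    (F : Finset (Fin n)) (c : Fin n → Bool) :
    (supp (tr A) F c).card ≤ (A.filter (fun S => Fᶜ ⊆ S)).card := by
  apply Finset.card_le_card_of_injOn (fun x => toF x ∪ Fᶜ)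
  · intro x hx
    have hx' := mem_supp.1 (Finset.mem_coe.1 hx)
    apply Finset.mem_coe.2
    apply Finset.mem_filter.2
    refine ⟨?_, Finset.subset_union_right⟩
    exact Finset.mem_coe.1 (hA (show toF x ≤ toF x ∪ Fᶜ from Finset.subset_union_left)
      (Finset.mem_coe.2 ((mem_tr A x).1 hx'.1)))
  · intro x hx y hy hxy
    have hx' := mem_supp.1 (Finset.mem_coe.1 hx)
    have hy' := mem_supp.1 (Finset.mem_coe.1 hy)
    funext i
    by_cases hi : i ∈ F
    · have h1 : (i ∈ toF x ∪ Fᶜ) ↔ (i ∈ toF y ∪ Fᶜ) := by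
        have : toF x ∪ Fᶜ = toF y ∪ Fᶜ := hxy
        rw [this]
      simp only [Finset.mem_union, mem_toF, Finset.mem_compl, hi, not_true, or_false] at h1
      rw [Bool.eq_iff_iff]; exact h1
    · rw [hx'.2 i hi, hy'.2 i hi]

end Pool.Agent.TH385.KK
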