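import Pool.Agent.TH385.KK.Iter

/-!
The final forms.
-/

set_option autoImplicit false
set_option linter.unusedSectionVars false

noncomputable section

namespace Pool.Agent.TH385.KK

open Finset

variable {ι : Type*} [Fintype ι] [DecidableEq ι]

lemma card_cube (S : Finset ι) (c : ι → Bool)
    [DecidablePred (fun x : ι → Bool => ∀ i ∈ S, x i = c i)] :
    (Finset.univ.filter (fun x : ι → Bool => ∀ i ∈ S, x i = c i)).card = 2 ^ (Sᶜ).card := by
  have h : Finset.univ.filter (fun x : ι → Bool => ∀ i ∈ S, x i = c i)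
      = Fintype.piFinset (fun i => if i ∈ S then ({c i} : Finset Bool) else Finset.univ) := by
    ext x
    simp only [Finset.mem_filter, Finset.mem_univ, true_and, Fintype.mem_piFinset]
    refine ⟨fun h i => ?_, fun h i hi => ?_⟩
    · split_ifs with hi
      · simp [h i hi]
      · simp
    · have := h i
      rw [if_pos hi] at this
      simpa using this
  rw [h, Fintype.card_piFinset]
  have : ∀ i, (if i ∈ S then ({c i} : Finset Bool) else Finset.univ).card
      = if i ∈ Sᶜ then 2 else 1 := by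
    intro i
    by_cases hi : i ∈ S <;> simp [hi]
  rw [Finset.prod_congr rfl (fun i _ => this i), Finset.prod_ite_mem, Finset.univ_inter,
    Finset.prod_const]

lemma bd_eq (A : Finset (ι → Bool)) :
    ((A ×ˢ (Finset.univ : Finset ι)).filter
      (fun p => Function.update p.1 p.2 (!(p.1 p.2)) ∉ A)).card = bd A := by
  unfold bd
  rw [Finset.card_filter, Finset.sum_product_right]
  refine Finset.sum_congr rfl (fun j _ => ?_)
  rw [Finset.card_filter]
  rfl

lemma mem_supp {A : Finset (ι → Bool)} {F : Finset ι} {c x : ι → Bool} :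
    x ∈ supp A F c ↔ x ∈ A ∧ ∀ i, i ∉ F → x i = c i := by
  simp [supp]

/-- Main statement, with explicit constants depending on `L` only. -/
theorem kk_main {L : ℝ} (hL : 0 < L) {A : Finset (ι → Bool)} (hA : A.Nonempty)
    (hhalf : (A.card : ℝ) / 2 ^ Fintype.card ι ≤ 1 / 2)
    (hbd : (bd A : ℝ) ≤ L * (A.card : ℝ)
      * Real.logb 2 ((2 : ℝ) ^ Fintype.card ι / (A.card : ℝ))) :
    ∃ F : Finset ι, ∃ c : ι → Bool,
      ((A.card : ℝ) / 2 ^ Fintype.card ι)
        ^ (2 * (1 + L / Real.log 2) / epsL (2 * (1 + L / Real.log 2)))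
          ≤ (1 / 2 : ℝ) ^ (Fᶜ).card ∧
      (1 + 2 / 5) * ((A.card : ℝ) / 2 ^ Fintype.card ι)
        ≤ ((supp A F c).card : ℝ) / 2 ^ F.card := by
  have hN : (0 : ℝ) < A.card := by exact_mod_cast Finset.card_pos.2 hA
  have hlog2 : 0 < Real.log 2 := Real.log_pos (by norm_num)
  set L0 : ℝ := 1 + L / Real.log 2 with hL0
  have hL01 : 1 ≤ L0 := by
    have : 0 < L / Real.log 2 := by positivity
    rw [hL0]; linarith
  set ℓ : ℝ := Fintype.card ι * Real.log 2 - Real.log A.card with hℓ
  have hlα : Real.log ((A.card : ℝ) / 2 ^ Fintype.card ι) = - ℓ := by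
    rw [Real.log_div hN.ne' (by positivity), Real.log_pow, hℓ]; ring
  have hlα2 : Real.log ((2 : ℝ) ^ Fintype.card ι / (A.card : ℝ)) = ℓ := by
    rw [Real.log_div (by positivity) hN.ne', Real.log_pow, hℓ]
  have hℓ0 : 0 ≤ ℓ := by
    have h1 : Real.log ((A.card : ℝ) / 2 ^ Fintype.card ι) ≤ 0 :=
      Real.log_nonpos (by positivity) (hhalf.trans (by norm_num))
    linarith
  obtain ⟨F, c, h1, h2⟩ := exists_dense (L0 := L0) (δ := 2 / 5) hL01 (by norm_num) (by norm_num)
    hA hhalf (by
      refine hbd.trans ?_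
      unfold Real.logb
      rw [hlα2, ← hℓ]
      have e : L * (A.card : ℝ) * (ℓ / Real.log 2) = (L / Real.log 2) * (A.card * ℓ) := by ring
      rw [e, mul_assoc]
      apply mul_le_mul_of_nonneg_right _ (by positivity)
      rw [hL0]; linarith)
  refine ⟨F, c, ?_, h2⟩
  have hε0 : 0 < epsL (2 * L0) := epsL_pos (by linarith)
  set L' : ℝ := 2 * L0 / epsL (2 * L0) with hL'
  have hcard : ((Fᶜ).card : ℝ) = Fintype.card ι - F.card := by
    rw [Finset.card_compl, Nat.cast_sub (Finset.card_le_univ F)]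
  rw [← hℓ, ← hcard] at h1
  have hpos : 0 < (A.card : ℝ) / 2 ^ Fintype.card ι := by positivity
  rw [Real.rpow_def_of_pos hpos, hlα]
  have e2 : (1 / 2 : ℝ) ^ (Fᶜ).card = Real.exp (-((Fᶜ).card * Real.log 2)) := by
    rw [← neg_mul, neg_mul_comm, ← Real.log_inv, Real.exp_nat_mul,
      Real.exp_log (by norm_num)]
    norm_num
  rw [e2]
  apply Real.exp_le_exp.2
  have hl1 : Real.log 2 ≤ 1 := by
    have := Real.log_two_lt_d9; linarith
  have hc0 : (0 : ℝ) ≤ (Fᶜ).card := Nat.cast_nonneg _
  nlinarith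

end Pool.Agent.TH385.KK
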