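import Mathlib

/-!
Conditional expectations on the discrete cube with respect to a weight, and the
energy drop when one coordinate is forgotten.
-/

set_option autoImplicit false
set_option linter.unusedSectionVars false

noncomputable section

namespace Pool.Agent.TH385.KK

open Finset

variable {ι : Type*} [Fintype ι] [DecidableEq ι]

/-- flip coordinate `i`. -/
def fl (i : ι) (x : ι → Bool) : ι → Bool := Function.update x i (!(x i))

/-- the `±1` character of coordinate `i`. -/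
def chi (i : ι) (x : ι → Bool) : ℝ := if x i then 1 else -1

lemma fl_same (i : ι) (x : ι → Bool) : fl i x i = !(x i) := by simp [fl]

lemma fl_ne {i j : ι} (h : j ≠ i) (x : ι → Bool) : fl i x j = x j := by
  simp [fl, h]

lemma fl_fl (i : ι) (x : ι → Bool) : fl i (fl i x) = x := by
  funext j
  by_cases h : j = i
  · subst h; simp [fl_same]
  · simp [fl_ne h]

lemma fl_ne_self (i : ι) (x : ι → Bool) : fl i x ≠ x := by
  intro h
  have := congrFun h i
  rw [fl_same] at this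
  cases hx : x i <;> simp [hx] at this

lemma fl_invol (i : ι) : Function.Involutive (fl (ι := ι) i) := fl_fl i

lemma sum_fl (i : ι) (f : (ι → Bool) → ℝ) : ∑ x, f (fl i x) = ∑ x, f x :=
  Equiv.sum_comp (Function.Involutive.toPerm (fl i) (fl_invol i)) f

lemma chi_sq (i : ι) (x : ι → Bool) : chi i x ^ 2 = 1 := by
  unfold chi; split_ifs <;> norm_num

lemma chi_abs (i : ι) (x : ι → Bool) : |chi i x| = 1 := by
  unfold chi; split_ifs <;> norm_num

lemma chi_fl (i : ι) (x : ι → Bool) : chi i (fl i x) = - chi i x := by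
  unfold chi; rw [fl_same]; cases x i <;> simp

/-- agreement indicator. -/
def ag (R : Finset ι) (x y : ι → Bool) : ℝ := if ∀ i ∈ R, x i = y i then 1 else 0

lemma ag_nonneg (R : Finset ι) (x y : ι → Bool) : 0 ≤ ag R x y := by
  unfold ag; split_ifs <;> norm_num

lemma ag_self (R : Finset ι) (x : ι → Bool) : ag R x x = 1 := by
  unfold ag; simp

lemma ag_symm (R : Finset ι) (x y : ι → Bool) : ag R x y = ag R y x := by
  unfold ag
  congr 1
  exact propext ⟨fun h i hi => (h i hi).symm, fun h i hi => (h i hi).symm⟩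

/-- `a` depends only on the coordinates in `R`. -/
def Dep (R : Finset ι) (a : (ι → Bool) → ℝ) : Prop :=
  ∀ x y, (∀ i ∈ R, x i = y i) → a x = a y

lemma Dep.mono {R R' : Finset ι} {a : (ι → Bool) → ℝ} (h : Dep R a) (hR : R ⊆ R') : Dep R' a :=
  fun x y hxy => h x y (fun i hi => hxy i (hR hi))

lemma Dep.fl {R : Finset ι} {a : (ι → Bool) → ℝ} (h : Dep R a) {j : ι} (hj : j ∉ R)
    (x : ι → Bool) : a (fl j x) = a x :=
  h _ _ (fun i hi => fl_ne (fun e => hj (by rw [← e]; exact hi)) x)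

lemma ag_mul_dep {R : Finset ι} {a : (ι → Bool) → ℝ} (h : Dep R a) (x y : ι → Bool) :
    ag R x y * a y = ag R x y * a x := by
  unfold ag
  split_ifs with hh
  · rw [h x y hh]
  · simp

lemma ag_dep (R : Finset ι) (y : ι → Bool) : Dep R (fun x => ag R x y) := by
  intro x x' hx
  unfold ag
  simp only
  congr 1
  exact propext ⟨fun h i hi => (hx i hi) ▸ h i hi, fun h i hi => (hx i hi).symm ▸ h i hi⟩

/-- marginal. -/
def mr (μ : (ι → Bool) → ℝ) (R : Finset ι) (x : ι → Bool) : ℝ := ∑ y, ag R x y * μ y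

/-- conditional expectation. -/
def ce (μ : (ι → Bool) → ℝ) (R : Finset ι) (g : (ι → Bool) → ℝ) (x : ι → Bool) : ℝ :=
  (∑ y, ag R x y * (μ y * g y)) / mr μ R x

variable {μ : (ι → Bool) → ℝ}

lemma mr_dep (R : Finset ι) : Dep R (mr μ R) := by
  intro x x' hx
  unfold mr
  refine Finset.sum_congr rfl (fun y _ => ?_)
  have e : ag R x y = ag R x' y := ag_dep R y x x' hx
  rw [e]

lemma ce_dep (R : Finset ι) (g : (ι → Bool) → ℝ) : Dep R (ce μ R g) := by
  intro x x' hx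
  unfold ce
  rw [mr_dep R x x' hx]
  congr 1
  refine Finset.sum_congr rfl (fun y _ => ?_)
  have e : ag R x y = ag R x' y := ag_dep R y x x' hx
  rw [e]

lemma mr_nonneg (hμ : ∀ x, 0 ≤ μ x) (R : Finset ι) (x : ι → Bool) : 0 ≤ mr μ R x :=
  Finset.sum_nonneg (fun y _ => mul_nonneg (ag_nonneg _ _ _) (hμ y))

lemma le_mr (hμ : ∀ x, 0 ≤ μ x) (R : Finset ι) (x : ι → Bool) : μ x ≤ mr μ R x := by
  have := Finset.single_le_sum (f := fun y => ag R x y * μ y)
    (fun y _ => mul_nonneg (ag_nonneg _ _ _) (hμ y)) (Finset.mem_univ x)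
  simpa [ag_self, mr] using this

/-- the projection property. -/
lemma sum_ce (hμ : ∀ x, 0 ≤ μ x) {R : Finset ι} {a : (ι → Bool) → ℝ} (ha : Dep R a)
    (g : (ι → Bool) → ℝ) :
    ∑ x, μ x * (a x * ce μ R g x) = ∑ x, μ x * (a x * g x) := by
  have h1 : ∀ x, μ x * (a x * ce μ R g x)
      = ∑ y, ag R y x * (μ x * (μ y * (a y * g y) / mr μ R y)) := by
    intro x
    unfold ce
    rw [Finset.sum_div, Finset.mul_sum, Finset.mul_sum]
    refine Finset.sum_congr rfl (fun y _ => ?_)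
    rw [ag_symm R y x]
    have e1 := ag_mul_dep ha x y
    have e2 := ag_mul_dep (mr_dep (μ := μ) R) x y
    unfold ag at *
    split_ifs at * with hh
    · simp only [one_mul] at e1 e2 ⊢
      rw [e1, e2]; ring
    · simp
  calc ∑ x, μ x * (a x * ce μ R g x)
      = ∑ x, ∑ y, ag R y x * (μ x * (μ y * (a y * g y) / mr μ R y)) :=
        Finset.sum_congr rfl (fun x _ => h1 x)
    _ = ∑ y, ∑ x, ag R y x * (μ x * (μ y * (a y * g y) / mr μ R y)) := Finset.sum_comm
    _ = ∑ y, μ y * (a y * g y) := by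
        refine Finset.sum_congr rfl (fun y _ => ?_)
        have : ∑ x, ag R y x * (μ x * (μ y * (a y * g y) / mr μ R y))
            = mr μ R y * (μ y * (a y * g y) / mr μ R y) := by
          unfold mr
          rw [Finset.sum_mul]
          exact Finset.sum_congr rfl (fun x _ => by ring)
        rw [this]
        by_cases hz : mr μ R y = 0
        · have : μ y = 0 := le_antisymm (hz ▸ le_mr hμ R y) (hμ y)
          rw [this]; simp
        · field_simp

/-- squared norm. -/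
def nsq (μ : (ι → Bool) → ℝ) (a : (ι → Bool) → ℝ) : ℝ := ∑ x, μ x * (a x) ^ 2

lemma nsq_nonneg (hμ : ∀ x, 0 ≤ μ x) (a : (ι → Bool) → ℝ) : 0 ≤ nsq μ a :=
  Finset.sum_nonneg (fun x _ => mul_nonneg (hμ x) (sq_nonneg _))

lemma nsq_le_of_ip (hμ : ∀ x, 0 ≤ μ x) {a b : (ι → Bool) → ℝ}
    (h : ∑ x, μ x * (a x * b x) = nsq μ a) : nsq μ a ≤ nsq μ b := by
  have h1 : 0 ≤ ∑ x, μ x * (a x - b x) ^ 2 :=
    Finset.sum_nonneg (fun x _ => mul_nonneg (hμ x) (sq_nonneg _))
  have h2 : ∑ x, μ x * (a x - b x) ^ 2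
      = nsq μ a - 2 * (∑ x, μ x * (a x * b x)) + nsq μ b := by
    unfold nsq
    rw [Finset.mul_sum, ← Finset.sum_sub_distrib, ← Finset.sum_add_distrib]
    exact Finset.sum_congr rfl (fun x _ => by ring)
  rw [h2, h] at h1
  linarith

lemma nsq_add_le (hμ : ∀ x, 0 ≤ μ x) (a b : (ι → Bool) → ℝ) :
    nsq μ (fun x => a x + b x) ≤ 2 * nsq μ a + 2 * nsq μ b := by
  unfold nsq
  rw [Finset.mul_sum, Finset.mul_sum, ← Finset.sum_add_distrib]
  refine Finset.sum_le_sum (fun x _ => ?_)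
  nlinarith [mul_nonneg (hμ x) (sq_nonneg (a x - b x))]

lemma nsq_ce_eq (hμ : ∀ x, 0 ≤ μ x) (R : Finset ι) (g : (ι → Bool) → ℝ) :
    nsq μ (ce μ R g) = ∑ x, μ x * (ce μ R g x * g x) := by
  rw [← sum_ce hμ (ce_dep R g) g]
  unfold nsq
  exact Finset.sum_congr rfl (fun x _ => by ring)

lemma nsq_ce_le (hμ : ∀ x, 0 ≤ μ x) (R : Finset ι) (g : (ι → Bool) → ℝ) :
    nsq μ (ce μ R g) ≤ nsq μ g :=
  nsq_le_of_ip hμ (nsq_ce_eq hμ R g).symm

lemma nsq_ce_mono (hμ : ∀ x, 0 ≤ μ x) {R R' : Finset ι} (hR : R ⊆ R') (g : (ι → Bool) → ℝ) :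
    nsq μ (ce μ R g) ≤ nsq μ (ce μ R' g) := by
  apply nsq_le_of_ip hμ
  rw [sum_ce hμ ((ce_dep R g).mono hR) g, ← nsq_ce_eq hμ]

lemma ce_add (R : Finset ι) (g h : (ι → Bool) → ℝ) (x : ι → Bool) :
    ce μ R (fun y => g y + h y) x = ce μ R g x + ce μ R h x := by
  unfold ce
  rw [← add_div, ← Finset.sum_add_distrib]
  congr 1
  exact Finset.sum_congr rfl (fun y _ => by ring)

lemma ce_congr (R : Finset ι) {g h : (ι → Bool) → ℝ} (hgh : ∀ y, μ y * g y = μ y * h y)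
    (x : ι → Bool) : ce μ R g x = ce μ R h x := by
  unfold ce
  congr 1
  exact Finset.sum_congr rfl (fun y _ => by rw [hgh y])

lemma abs_ce_le (hμ : ∀ x, 0 ≤ μ x) (R : Finset ι) (g : (ι → Bool) → ℝ) (x : ι → Bool) :
    |ce μ R g x| ≤ ce μ R (fun y => |g y|) x := by
  unfold ce
  rw [abs_div, abs_of_nonneg (mr_nonneg hμ R x)]
  apply div_le_div_of_nonneg_right _ (mr_nonneg hμ R x)
  refine (Finset.abs_sum_le_sum_abs _ _).trans (le_of_eq ?_)
  refine Finset.sum_congr rfl (fun y _ => ?_)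
  rw [abs_mul, abs_mul, abs_of_nonneg (ag_nonneg R x y), abs_of_nonneg (hμ y)]

lemma sum_abs_ce_le (hμ : ∀ x, 0 ≤ μ x) (R : Finset ι) (g : (ι → Bool) → ℝ) :
    ∑ x, μ x * |ce μ R g x| ≤ ∑ x, μ x * |g x| := by
  have h1 : ∑ x, μ x * ((1 : ℝ) * ce μ R (fun y => |g y|) x) = ∑ x, μ x * ((1 : ℝ) * |g x|) :=
    sum_ce hμ (R := R) (a := fun _ => (1 : ℝ)) (fun _ _ _ => rfl) (fun y => |g y|)
  simp only [one_mul] at h1
  rw [← h1]
  exact Finset.sum_le_sum (fun x _ => mul_le_mul_of_nonneg_left (abs_ce_le hμ R g x) (hμ x))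

lemma abs_ce_le_one (hμ : ∀ x, 0 ≤ μ x) (R : Finset ι) {g : (ι → Bool) → ℝ}
    (hg : ∀ x, |g x| ≤ 1) (x : ι → Bool) : |ce μ R g x| ≤ 1 := by
  refine (abs_ce_le hμ R g x).trans ?_
  unfold ce
  apply div_le_one_of_le₀ _ (mr_nonneg hμ R x)
  unfold mr
  refine Finset.sum_le_sum (fun y _ => ?_)
  apply mul_le_mul_of_nonneg_left _ (ag_nonneg R x y)
  calc μ y * |g y| ≤ μ y * 1 := mul_le_mul_of_nonneg_left (hg y) (hμ y)
    _ = μ y := mul_one _

/-- averaging over one edge. -/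
def ej (μ : (ι → Bool) → ℝ) (j : ι) (h : (ι → Bool) → ℝ) (x : ι → Bool) : ℝ :=
  (μ x * h x + μ (fl j x) * h (fl j x)) / (μ x + μ (fl j x))

/-- energy in direction `j`. -/
def en (μ : (ι → Bool) → ℝ) (j : ι) (h : (ι → Bool) → ℝ) : ℝ :=
  ∑ x, 1 / 2 * (μ x * μ (fl j x) / (μ x + μ (fl j x))) * (h x - h (fl j x)) ^ 2

lemma en_nonneg (hμ : ∀ x, 0 ≤ μ x) (j : ι) (h : (ι → Bool) → ℝ) : 0 ≤ en μ j h := by
  unfold en
  refine Finset.sum_nonneg (fun x _ => ?_)
  have := hμ x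
  have := hμ (fl j x)
  positivity

lemma ej_fl (j : ι) (h : (ι → Bool) → ℝ) (x : ι → Bool) : ej μ j h (fl j x) = ej μ j h x := by
  unfold ej
  rw [fl_fl, add_comm (μ (fl j x) * h (fl j x)), add_comm (μ (fl j x))]

lemma sum_half (j : ι) (f : (ι → Bool) → ℝ) :
    ∑ x, f x = ∑ x, 1 / 2 * (f x + f (fl j x)) := by
  rw [← Finset.mul_sum, Finset.sum_add_distrib, sum_fl]
  ring

lemma sum_ej (hμ : ∀ x, 0 ≤ μ x) (j : ι) {a : (ι → Bool) → ℝ} (ha : ∀ x, a (fl j x) = a x)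
    (h : (ι → Bool) → ℝ) :
    ∑ x, μ x * (a x * ej μ j h x) = ∑ x, μ x * (a x * h x) := by
  rw [sum_half j, sum_half j (fun x => μ x * (a x * h x))]
  refine Finset.sum_congr rfl (fun x _ => ?_)
  simp only [ej_fl, ha]
  unfold ej
  by_cases hz : μ x + μ (fl j x) = 0
  · have h1 : μ x = 0 := by linarith [hμ x, hμ (fl j x)]
    have h2 : μ (fl j x) = 0 := by linarith [hμ x, hμ (fl j x)]
    rw [h1, h2]; simp
  · field_simp

lemma nsq_ej (hμ : ∀ x, 0 ≤ μ x) (j : ι) (h : (ι → Bool) → ℝ) :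
    nsq μ (ej μ j h) = nsq μ h - en μ j h := by
  unfold nsq en
  rw [sum_half j (fun x => μ x * (ej μ j h x) ^ 2), sum_half j (fun x => μ x * (h x) ^ 2),
    ← Finset.sum_sub_distrib]
  refine Finset.sum_congr rfl (fun x _ => ?_)
  simp only [ej_fl]
  unfold ej
  by_cases hz : μ x + μ (fl j x) = 0
  · have h1 : μ x = 0 := by linarith [hμ x, hμ (fl j x)]
    have h2 : μ (fl j x) = 0 := by linarith [hμ x, hμ (fl j x)]
    rw [h1, h2]; simp
  · field_simp
    ring

/-- forgetting coordinate `j` loses at least the energy in direction `j`. -/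
lemma nsq_ce_erase (hμ : ∀ x, 0 ≤ μ x) (R : Finset ι) (j : ι) (g : (ι → Bool) → ℝ) :
    nsq μ (ce μ (R.erase j) g) ≤ nsq μ (ce μ R g) - en μ j (ce μ R g) := by
  rw [← nsq_ej hμ]
  apply nsq_le_of_ip hμ
  have hd : Dep (R.erase j) (ce μ (R.erase j) g) := ce_dep _ _
  rw [sum_ej hμ j (fun x => hd.fl (Finset.notMem_erase j R) x),
    sum_ce hμ (hd.mono (Finset.erase_subset j R)) g, ← nsq_ce_eq hμ]

lemma en_zero_of_dep {R : Finset ι} {a : (ι → Bool) → ℝ} (h : Dep R a) {j : ι} (hj : j ∉ R) :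
    en μ j a = 0 := by
  unfold en
  refine Finset.sum_eq_zero (fun x _ => ?_)
  rw [h.fl hj]; ring

/-- conditional expectation of an edge average. -/
lemma ce_ej (hμ : ∀ x, 0 ≤ μ x) (R : Finset ι) {j : ι} (hj : j ∉ R) (g : (ι → Bool) → ℝ)
    (x : ι → Bool) : ce μ R (ej μ j g) x = ce μ R g x := by
  unfold ce
  congr 1
  have := sum_ej hμ j (a := fun y => ag R y x) (fun y => (ag_dep R x).fl hj y) g
  calc ∑ y, ag R x y * (μ y * ej μ j g y) = ∑ y, μ y * (ag R y x * ej μ j g y) :=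
        Finset.sum_congr rfl (fun y _ => by rw [ag_symm R x y]; ring)
    _ = ∑ y, μ y * (ag R y x * g y) := this
    _ = ∑ y, ag R x y * (μ y * g y) :=
        Finset.sum_congr rfl (fun y _ => by rw [ag_symm R x y]; ring)

end Pool.Agent.TH385.KK
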