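import Mathlib

/-!
Averaging over random subsets of a finite set and the derivative in the density.
-/

set_option autoImplicit false
set_option linter.unusedSectionVars false

noncomputable section

namespace Pool.Agent.TH385.KK

open Finset

variable {ι : Type*} [DecidableEq ι]

/-- product weight. -/
def wt (F : Finset ι) (t : ℝ) (T : Finset ι) : ℝ := ∏ i ∈ F, (if i ∈ T then t else 1 - t)

/-- average over random subsets of `F`. -/
def Pt (F : Finset ι) (t : ℝ) (Φ : Finset ι → ℝ) : ℝ := ∑ T ∈ F.powerset, wt F t T * Φ T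

lemma wt_nonneg (F : Finset ι) {t : ℝ} (h0 : 0 ≤ t) (h1 : t ≤ 1) (T : Finset ι) :
    0 ≤ wt F t T := by
  unfold wt
  refine Finset.prod_nonneg (fun i _ => ?_)
  split_ifs <;> linarith

lemma wt_congr (F : Finset ι) (t : ℝ) {T T' : Finset ι} (h : ∀ i ∈ F, (i ∈ T ↔ i ∈ T')) :
    wt F t T = wt F t T' := by
  unfold wt
  refine Finset.prod_congr rfl (fun i hi => ?_)
  simp only [h i hi]

/-- sum over subsets, splitting at `j`. -/
lemma sum_powerset_split {F : Finset ι} {j : ι} (hj : j ∈ F) (f : Finset ι → ℝ) :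
    ∑ T ∈ F.powerset, f T = ∑ T ∈ (F.erase j).powerset, (f T + f (insert j T)) := by
  conv_lhs => rw [← Finset.insert_erase hj]
  rw [Finset.sum_powerset_insert (Finset.notMem_erase j F), ← Finset.sum_add_distrib]

lemma wt_mem {F : Finset ι} {j : ι} (hj : j ∈ F) (t : ℝ) {T : Finset ι} (hT : j ∈ T) :
    wt F t T = t * wt (F.erase j) t T := by
  unfold wt
  rw [← Finset.mul_prod_erase F _ hj]
  simp [hT]

lemma wt_notMem {F : Finset ι} {j : ι} (hj : j ∈ F) (t : ℝ) {T : Finset ι} (hT : j ∉ T) :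
    wt F t T = (1 - t) * wt (F.erase j) t T := by
  unfold wt
  rw [← Finset.mul_prod_erase F _ hj]
  simp [hT]

lemma wt_erase_insert (F : Finset ι) (j : ι) (t : ℝ) (T : Finset ι) :
    wt (F.erase j) t (insert j T) = wt (F.erase j) t T := by
  apply wt_congr
  intro i hi
  simp [Finset.ne_of_mem_erase hi]

lemma Pt_split {F : Finset ι} {j : ι} (hj : j ∈ F) (t : ℝ) (Φ : Finset ι → ℝ) :
    Pt F t Φ = ∑ T ∈ (F.erase j).powerset,
      wt (F.erase j) t T * ((1 - t) * Φ T + t * Φ (insert j T)) := by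
  unfold Pt
  rw [sum_powerset_split hj]
  refine Finset.sum_congr rfl (fun T hT => ?_)
  have hjT : j ∉ T := fun h => Finset.notMem_erase j F (Finset.mem_powerset.1 hT h)
  rw [wt_notMem hj t hjT, wt_mem hj t (Finset.mem_insert_self j T), wt_erase_insert]
  ring

lemma hasDerivAt_wt (F : Finset ι) (T : Finset ι) (t : ℝ) :
    HasDerivAt (fun t => wt F t T)
      (∑ j ∈ F, (if j ∈ T then 1 else -1) * wt (F.erase j) t T) t := by
  unfold wt
  have h : ∀ i ∈ F, HasDerivAt (fun t : ℝ => (if i ∈ T then t else 1 - t))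
      (if i ∈ T then 1 else -1) t := by
    intro i _
    by_cases hi : i ∈ T
    · simp only [hi, if_true]; exact hasDerivAt_id t
    · simp only [hi, if_false]
      simpa using (hasDerivAt_id t).const_sub 1
  have := HasDerivAt.fun_finsetProd h
  refine this.congr_deriv ?_
  refine Finset.sum_congr rfl (fun j _ => ?_)
  simp only [smul_eq_mul]
  ring

lemma hasDerivAt_Pt (F : Finset ι) (Φ : Finset ι → ℝ) (t : ℝ) :
    HasDerivAt (fun t => Pt F t Φ)
      (∑ j ∈ F, ∑ T ∈ (F.erase j).powerset, wt (F.erase j) t T * (Φ (insert j T) - Φ T)) t := by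
  unfold Pt
  have h : HasDerivAt (fun t => ∑ T ∈ F.powerset, wt F t T * Φ T)
      (∑ T ∈ F.powerset, (∑ j ∈ F, (if j ∈ T then 1 else -1) * wt (F.erase j) t T) * Φ T) t := by
    apply HasDerivAt.fun_sum
    intro T _
    exact (hasDerivAt_wt F T t).mul_const _
  refine h.congr_deriv ?_
  have e1 : ∑ T ∈ F.powerset, (∑ j ∈ F, (if j ∈ T then (1:ℝ) else -1) * wt (F.erase j) t T) * Φ T
      = ∑ j ∈ F, ∑ T ∈ F.powerset,
          (if j ∈ T then (1:ℝ) else -1) * wt (F.erase j) t T * Φ T := by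
    rw [Finset.sum_comm]
    refine Finset.sum_congr rfl (fun T _ => ?_)
    rw [Finset.sum_mul]
  rw [e1]
  refine Finset.sum_congr rfl (fun j hj => ?_)
  rw [sum_powerset_split hj]
  refine Finset.sum_congr rfl (fun T hT => ?_)
  have hjT : j ∉ T := fun h => Finset.notMem_erase j F (Finset.mem_powerset.1 hT h)
  rw [wt_erase_insert]
  simp only [hjT, if_false, Finset.mem_insert_self, if_true]
  ring

lemma wt_one_erase {F : Finset ι} {T : Finset ι} (hT : T ⊆ F) :
    wt F 1 T = if T = F then 1 else 0 := by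
  unfold wt
  split_ifs with h
  · subst h
    refine Finset.prod_eq_one (fun i hi => by simp [hi])
  · have : ∃ i ∈ F, i ∉ T := by
      by_contra hc
      push Not at hc
      exact h (Finset.Subset.antisymm hT hc)
    obtain ⟨i, hi, hiT⟩ := this
    exact Finset.prod_eq_zero hi (by simp [hiT])

lemma wt_zero_erase {F : Finset ι} {T : Finset ι} (hT : T ⊆ F) :
    wt F 0 T = if T = ∅ then 1 else 0 := by
  unfold wt
  split_ifs with h
  · subst h
    refine Finset.prod_eq_one (fun i _ => by simp)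
  · obtain ⟨i, hi⟩ := Finset.nonempty_iff_ne_empty.2 h
    exact Finset.prod_eq_zero (hT hi) (by simp [hi])

lemma Pt_zero (F : Finset ι) (Φ : Finset ι → ℝ) : Pt F 0 Φ = Φ ∅ := by
  unfold Pt
  rw [Finset.sum_eq_single ∅]
  · rw [wt_zero_erase (Finset.empty_subset F)]; simp
  · intro T hT hne
    rw [wt_zero_erase (Finset.mem_powerset.1 hT)]; simp [hne]
  · intro h; simp at h

lemma Pt_one (F : Finset ι) (Φ : Finset ι → ℝ) : Pt F 1 Φ = Φ F := by
  unfold Pt
  rw [Finset.sum_eq_single F]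
  · rw [wt_one_erase (Finset.Subset.refl F)]; simp
  · intro T hT hne
    rw [wt_one_erase (Finset.mem_powerset.1 hT)]; simp [hne]
  · intro h; simp at h

lemma Pt_mono (F : Finset ι) {t : ℝ} (h0 : 0 ≤ t) (h1 : t ≤ 1) {Φ Ψ : Finset ι → ℝ}
    (h : ∀ T ⊆ F, Φ T ≤ Ψ T) : Pt F t Φ ≤ Pt F t Ψ :=
  Finset.sum_le_sum (fun T hT =>
    mul_le_mul_of_nonneg_left (h T (Finset.mem_powerset.1 hT)) (wt_nonneg F h0 h1 T))

lemma sum_wt (F : Finset ι) (t : ℝ) : ∑ T ∈ F.powerset, wt F t T = 1 := by
  induction F using Finset.induction_on with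
  | empty => simp [wt]
  | insert j F hj ih =>
    rw [sum_powerset_split (Finset.mem_insert_self j F)]
    rw [Finset.erase_insert hj, ← ih]
    refine Finset.sum_congr rfl (fun T hT => ?_)
    have hjT : j ∉ T := fun h => hj (Finset.mem_powerset.1 hT h)
    rw [wt_notMem (Finset.mem_insert_self j F) t hjT,
      wt_mem (Finset.mem_insert_self j F) t (Finset.mem_insert_self j T), wt_erase_insert,
      Finset.erase_insert hj]
    ring

lemma Pt_const (F : Finset ι) (t c : ℝ) : Pt F t (fun _ => c) = c := by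
  unfold Pt
  rw [← Finset.sum_mul, sum_wt, one_mul]

lemma Pt_add (F : Finset ι) (t : ℝ) (Φ Ψ : Finset ι → ℝ) :
    Pt F t (fun T => Φ T + Ψ T) = Pt F t Φ + Pt F t Ψ := by
  unfold Pt
  rw [← Finset.sum_add_distrib]
  exact Finset.sum_congr rfl (fun T _ => by ring)

lemma Pt_smul (F : Finset ι) (t c : ℝ) (Φ : Finset ι → ℝ) :
    Pt F t (fun T => c * Φ T) = c * Pt F t Φ := by
  unfold Pt
  rw [Finset.mul_sum]
  exact Finset.sum_congr rfl (fun T _ => by ring)

lemma Pt_sum {κ : Type*} (s : Finset κ) (F : Finset ι) (t : ℝ) (Φ : κ → Finset ι → ℝ) :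
    Pt F t (fun T => ∑ k ∈ s, Φ k T) = ∑ k ∈ s, Pt F t (Φ k) := by
  unfold Pt
  rw [Finset.sum_comm]
  exact Finset.sum_congr rfl (fun T _ => by rw [Finset.mul_sum])

end Pool.Agent.TH385.KK
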