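import Pool.Agent.TH385.KK.Basic
import Pool.Agent.TH385.KK.Pt

/-!
Entropy of marginals, and the two bounds for the entropy by hard and soft boundary terms.
-/

set_option autoImplicit false
set_option linter.unusedSectionVars false

noncomputable section

namespace Pool.Agent.TH385.KK

open Finset

variable {ι : Type*} [Fintype ι] [DecidableEq ι]
variable {μ : (ι → Bool) → ℝ}

/-- relative entropy of the marginal on `R`. -/
def DR (μ : (ι → Bool) → ℝ) (R : Finset ι) : ℝ :=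
  ∑ x, μ x * Real.log (mr μ R x) + R.card * Real.log 2

lemma mr_empty (x : ι → Bool) : mr μ ∅ x = ∑ y, μ y := by
  unfold mr ag; simp

lemma DR_empty (hm : ∑ x, μ x = 1) : DR μ ∅ = 0 := by
  unfold DR
  simp [mr_empty, hm]

lemma ag_insert {R : Finset ι} (j : ι) (x y : ι → Bool) :
    2 * ag (insert j R) x y = ag R x y * (1 + chi j x * chi j y) := by
  unfold ag chi
  by_cases h : ∀ i ∈ R, x i = y i
  · by_cases hj : x j = y j
    · have : ∀ i ∈ insert j R, x i = y i := by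
        intro i hi
        rcases Finset.mem_insert.1 hi with rfl | hi
        · exact hj
        · exact h i hi
      rw [if_pos h, if_pos this]
      rw [hj]
      cases y j <;> norm_num
    · have : ¬ ∀ i ∈ insert j R, x i = y i := fun hc => hj (hc j (Finset.mem_insert_self j R))
      rw [if_pos h, if_neg this]
      cases hx : x j <;> cases hy : y j <;> simp [hx, hy] at hj ⊢
  · have : ¬ ∀ i ∈ insert j R, x i = y i :=
      fun hc => h (fun i hi => hc i (Finset.mem_insert_of_mem hi))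
    rw [if_neg h, if_neg this]; simp

lemma mr_insert (hμ : ∀ x, 0 ≤ μ x) {R : Finset ι} (j : ι) (x : ι → Bool) (hx : 0 < μ x) :
    2 * mr μ (insert j R) x = mr μ R x * (1 + chi j x * ce μ R (chi j) x) := by
  have hpos : 0 < mr μ R x := lt_of_lt_of_le hx (le_mr hμ R x)
  have h1 : 2 * mr μ (insert j R) x = mr μ R x + chi j x * ∑ y, ag R x y * (μ y * chi j y) := by
    unfold mr
    rw [Finset.mul_sum, Finset.mul_sum, ← Finset.sum_add_distrib]
    refine Finset.sum_congr rfl (fun y _ => ?_)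
    have := ag_insert (R := R) j x y
    calc 2 * (ag (insert j R) x y * μ y) = (2 * ag (insert j R) x y) * μ y := by ring
      _ = _ := by rw [this]; ring
  rw [h1]
  unfold ce
  field_simp

lemma DR_insert_le (hμ : ∀ x, 0 ≤ μ x) (hm : ∑ x, μ x = 1) {R : Finset ι} {j : ι}
    (hj : j ∉ R) : DR μ (insert j R) - DR μ R ≤ nsq μ (ce μ R (chi j)) := by
  have h1 : DR μ (insert j R) - DR μ R
      = ∑ x, μ x * (Real.log (mr μ (insert j R) x) - Real.log (mr μ R x) + Real.log 2) := by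
    have h2 : Real.log 2 = ∑ x, μ x * Real.log 2 := by
      rw [← Finset.sum_mul, hm, one_mul]
    unfold DR
    rw [Finset.card_insert_of_notMem hj]
    have h3 : ∑ x, μ x * (Real.log (mr μ (insert j R) x) - Real.log (mr μ R x) + Real.log 2)
        = ∑ x, μ x * Real.log (mr μ (insert j R) x) - ∑ x, μ x * Real.log (mr μ R x)
          + ∑ x, μ x * Real.log 2 := by
      rw [← Finset.sum_sub_distrib, ← Finset.sum_add_distrib]
      exact Finset.sum_congr rfl (fun x _ => by ring)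
    rw [h3, ← h2]
    push_cast
    ring
  rw [h1, nsq_ce_eq hμ]
  refine Finset.sum_le_sum (fun x _ => ?_)
  rcases (hμ x).eq_or_lt with h0 | hx
  · rw [← h0]; simp
  · apply mul_le_mul_of_nonneg_left _ (hμ x)
    have hR : 0 < mr μ R x := lt_of_lt_of_le hx (le_mr hμ R x)
    have hI : 0 < mr μ (insert j R) x := lt_of_lt_of_le hx (le_mr hμ _ x)
    have key := mr_insert hμ (R := R) j x hx
    have hu : 0 < 1 + chi j x * ce μ R (chi j) x := by
      by_contra hc
      push Not at hc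
      have : mr μ R x * (1 + chi j x * ce μ R (chi j) x) ≤ 0 :=
        mul_nonpos_of_nonneg_of_nonpos hR.le hc
      linarith
    have hlog : Real.log (mr μ (insert j R) x) + Real.log 2
        = Real.log (mr μ R x) + Real.log (1 + chi j x * ce μ R (chi j) x) := by
      rw [← Real.log_mul hI.ne' (by norm_num), ← Real.log_mul hR.ne' hu.ne', ← key, mul_comm]
    have hl := Real.log_le_sub_one_of_pos hu
    linarith [mul_comm (chi j x) (ce μ R (chi j) x)]

/-- hard boundary in direction `j`. -/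
def hard (A : Finset (ι → Bool)) (μ : (ι → Bool) → ℝ) (j : ι) : ℝ :=
  ∑ x, μ x * (if fl j x ∈ A then 0 else 1)

/-- the soft cost. -/
def psi (a b : ℝ) : ℝ := (a - b) ^ 2 / (a + b)

/-- soft boundary in direction `j`. -/
def soft (A : Finset (ι → Bool)) (μ : (ι → Bool) → ℝ) (j : ι) : ℝ :=
  ∑ x, 1 / 2 * (if x ∈ A ∧ fl j x ∈ A then psi (μ x) (μ (fl j x)) else 0)

lemma psi_nonneg {a b : ℝ} (ha : 0 ≤ a) (hb : 0 ≤ b) : 0 ≤ psi a b := by
  unfold psi; positivity

lemma hard_nonneg (A : Finset (ι → Bool)) (hμ : ∀ x, 0 ≤ μ x) (j : ι) : 0 ≤ hard A μ j := by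
  unfold hard
  refine Finset.sum_nonneg (fun x _ => ?_)
  have := hμ x
  split_ifs <;> simp [this]

lemma soft_nonneg (A : Finset (ι → Bool)) (hμ : ∀ x, 0 ≤ μ x) (j : ι) : 0 ≤ soft A μ j := by
  unfold soft
  refine Finset.sum_nonneg (fun x _ => ?_)
  have := psi_nonneg (hμ x) (hμ (fl j x))
  split_ifs
  · linarith
  · simp

/-- hard part of the character. -/
def gg (A : Finset (ι → Bool)) (j : ι) (x : ι → Bool) : ℝ := if fl j x ∈ A then 0 else chi j x

/-- soft part of the character. -/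
def rr (A : Finset (ι → Bool)) (μ : (ι → Bool) → ℝ) (j : ι) (x : ι → Bool) : ℝ :=
  if fl j x ∈ A then ej μ j (chi j) x else 0

lemma abs_gg_le (A : Finset (ι → Bool)) (j : ι) (x : ι → Bool) : |gg A j x| ≤ 1 := by
  unfold gg
  split_ifs
  · simp
  · rw [chi_abs]

lemma nsq_gg (A : Finset (ι → Bool)) (j : ι) : nsq μ (gg A j) = hard A μ j := by
  unfold nsq hard gg
  refine Finset.sum_congr rfl (fun x _ => ?_)
  split_ifs
  · simp
  · rw [chi_sq]

lemma sum_abs_gg (A : Finset (ι → Bool)) (j : ι) : ∑ x, μ x * |gg A j x| = hard A μ j := by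
  unfold hard gg
  refine Finset.sum_congr rfl (fun x _ => ?_)
  split_ifs
  · simp
  · rw [chi_abs]

lemma nsq_rr (A : Finset (ι → Bool)) (hμ : ∀ x, 0 ≤ μ x) (hA : ∀ x, x ∉ A → μ x = 0) (j : ι) :
    nsq μ (rr A μ j) = soft A μ j := by
  unfold nsq soft
  rw [sum_half j]
  refine Finset.sum_congr rfl (fun x _ => ?_)
  congr 1
  unfold rr
  rw [fl_fl, ej_fl]
  by_cases hx : x ∈ A
  · by_cases hf : fl j x ∈ A
    · rw [if_pos hf, if_pos hx, if_pos ⟨hx, hf⟩]
      unfold ej psi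
      rw [chi_fl]
      by_cases hz : μ x + μ (fl j x) = 0
      · have h1 : μ x = 0 := by linarith [hμ x, hμ (fl j x)]
        have h2 : μ (fl j x) = 0 := by linarith [hμ x, hμ (fl j x)]
        rw [h1, h2]; simp
      · have hc := chi_sq j x
        field_simp
        have : (μ x * chi j x + μ (fl j x) * -chi j x) ^ 2 = (μ x - μ (fl j x)) ^ 2 := by
          have : (μ x * chi j x + μ (fl j x) * -chi j x) ^ 2
            = (μ x - μ (fl j x)) ^ 2 * chi j x ^ 2 := by ring
          rw [this, hc, mul_one]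
        nlinarith [this]
    · rw [if_neg hf, if_pos hx, hA _ hf, if_neg (fun h => hf h.2)]; simp
  · simp [hx, hA x hx]

lemma mul_ej_chi (A : Finset (ι → Bool)) (hμ : ∀ x, 0 ≤ μ x) (hA : ∀ x, x ∉ A → μ x = 0) (j : ι)
    (x : ι → Bool) : μ x * ej μ j (chi j) x = μ x * (gg A j x + rr A μ j x) := by
  unfold gg rr
  split_ifs with h
  · simp
  · rcases (hμ x).eq_or_lt with h0 | hx
    · rw [← h0]; simp
    · unfold ej
      rw [hA _ h]
      field_simp
      ring

lemma nsq_ce_chi_le (A : Finset (ι → Bool)) (hμ : ∀ x, 0 ≤ μ x) (hA : ∀ x, x ∉ A → μ x = 0)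
    {R : Finset ι} {j : ι} (hj : j ∉ R) :
    nsq μ (ce μ R (chi j)) ≤ hard A μ j + soft A μ j := by
  have h1 : ce μ R (chi j) = ce μ R (ej μ j (chi j)) := by
    funext x; exact (ce_ej hμ R hj (chi j) x).symm
  rw [h1]
  refine (nsq_ce_le hμ R _).trans (le_of_eq ?_)
  rw [← nsq_gg, ← nsq_rr A hμ hA]
  unfold nsq
  rw [← Finset.sum_add_distrib]
  refine Finset.sum_congr rfl (fun x _ => ?_)
  have h2 := mul_ej_chi A hμ hA j x
  have h3 : μ x * (ej μ j (chi j) x) ^ 2 = μ x * (gg A j x + rr A μ j x) ^ 2 := by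
    rcases (hμ x).eq_or_lt with h0 | hx
    · rw [← h0]; simp
    · rw [mul_left_cancel₀ hx.ne' h2]
  rw [h3]
  unfold gg rr
  split_ifs <;> ring

lemma nsq_ce_chi_le' (A : Finset (ι → Bool)) (hμ : ∀ x, 0 ≤ μ x) (hA : ∀ x, x ∉ A → μ x = 0)
    {R : Finset ι} {j : ι} (hj : j ∉ R) :
    nsq μ (ce μ R (chi j)) ≤ 2 * nsq μ (ce μ R (gg A j)) + 2 * soft A μ j := by
  have h1 : ce μ R (chi j) = fun x => ce μ R (gg A j) x + ce μ R (rr A μ j) x := by
    funext x
    rw [← ce_ej hμ R hj (chi j) x, ← ce_add]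
    exact ce_congr R (mul_ej_chi A hμ hA j) x
  rw [h1]
  refine (nsq_add_le hμ _ _).trans ?_
  have := nsq_ce_le hμ R (rr A μ j)
  rw [nsq_rr A hμ hA] at this
  linarith

/-- first entropy bound. -/
lemma DR_le (A : Finset (ι → Bool)) (hμ : ∀ x, 0 ≤ μ x) (hA : ∀ x, x ∉ A → μ x = 0)
    (hm : ∑ x, μ x = 1) (F : Finset ι) :
    DR μ F ≤ ∑ j ∈ F, (hard A μ j + soft A μ j) := by
  induction F using Finset.induction_on with
  | empty => rw [DR_empty hm]; simp
  | insert j F hj ih =>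
    rw [Finset.sum_insert hj]
    have h1 := DR_insert_le hμ hm hj
    have h2 := nsq_ce_chi_le A hμ hA hj
    linarith

/-- mean value bound. -/
lemma sub_le_of_deriv {G G' : ℝ → ℝ} (hG : ∀ t, HasDerivAt G (G' t) t) {a b c : ℝ} (hab : a ≤ b)
    (h : ∀ t, a < t → t < b → -c ≤ G' t) : G a - G b ≤ c * (b - a) := by
  rcases hab.eq_or_lt with rfl | hab
  · simp
  · obtain ⟨t, ht, hs⟩ := exists_hasDerivAt_eq_slope G G' hab
      (fun x _ => (hG x).continuousAt.continuousWithinAt) (fun x _ => hG x)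
    have h1 := h t ht.1 ht.2
    rw [hs] at h1
    have h2 : 0 < b - a := by linarith
    rw [le_div_iff₀ h2] at h1
    linarith

/-- the averaged hard correlation. -/
def Fg (A : Finset (ι → Bool)) (μ : (ι → Bool) → ℝ) (F : Finset ι) (t : ℝ) : ℝ :=
  ∑ i ∈ F, Pt F t (fun T => nsq μ (ce μ (F \ insert i T) (gg A i)))

lemma sdiff_insert_insert (F : Finset ι) (i j : ι) (T : Finset ι) :
    F \ insert i (insert j T) = (F \ insert i T).erase j := by
  ext k
  simp only [Finset.mem_sdiff, Finset.mem_insert, Finset.mem_erase]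
  tauto

lemma sdiff_insert' (F : Finset ι) (j : ι) (T : Finset ι) :
    F \ insert j T = (F \ T).erase j := by
  ext k
  simp only [Finset.mem_sdiff, Finset.mem_insert, Finset.mem_erase]
  tauto

/-- derivative of `Fg`. -/
def Fg' (A : Finset (ι → Bool)) (μ : (ι → Bool) → ℝ) (F : Finset ι) (t : ℝ) : ℝ :=
  ∑ i ∈ F, ∑ j ∈ F, ∑ T ∈ (F.erase j).powerset, wt (F.erase j) t T *
    (nsq μ (ce μ (F \ insert i (insert j T)) (gg A i)) - nsq μ (ce μ (F \ insert i T) (gg A i)))

lemma hasDerivAt_Fg (A : Finset (ι → Bool)) (F : Finset ι) (t : ℝ) :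
    HasDerivAt (Fg A μ F) (Fg' A μ F t) t := by
  unfold Fg Fg'
  apply HasDerivAt.fun_sum
  intro i _
  exact hasDerivAt_Pt F _ t

lemma Fg_zero_le (A : Finset (ι → Bool)) (hμ : ∀ x, 0 ≤ μ x) (F : Finset ι) :
    Fg A μ F 0 ≤ ∑ j ∈ F, hard A μ j := by
  unfold Fg
  refine Finset.sum_le_sum (fun i _ => ?_)
  rw [Pt_zero, ← nsq_gg]
  exact nsq_ce_le hμ _ _

lemma Fg_nonneg (A : Finset (ι → Bool)) (hμ : ∀ x, 0 ≤ μ x) (F : Finset ι) {t : ℝ}
    (h0 : 0 ≤ t) (h1 : t ≤ 1) : 0 ≤ Fg A μ F t := by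
  unfold Fg Pt
  exact Finset.sum_nonneg (fun i _ => Finset.sum_nonneg (fun T _ =>
    mul_nonneg (wt_nonneg F h0 h1 T) (nsq_nonneg hμ _)))

/-- the averaged energy. -/
def Eg (A : Finset (ι → Bool)) (μ : (ι → Bool) → ℝ) (F : Finset ι) (t : ℝ) : ℝ :=
  ∑ i ∈ F, Pt F t (fun T => ∑ j ∈ F, en μ j (ce μ (F \ insert i T) (gg A i)))

lemma Eg_le (A : Finset (ι → Bool)) (hμ : ∀ x, 0 ≤ μ x) (F : Finset ι) {t : ℝ}
    (h0 : 0 ≤ t) (h1 : t ≤ 1) : Eg A μ F t ≤ - Fg' A μ F t := by
  unfold Eg Fg'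
  rw [← Finset.sum_neg_distrib]
  refine Finset.sum_le_sum (fun i _ => ?_)
  rw [Pt_sum, ← Finset.sum_neg_distrib]
  refine Finset.sum_le_sum (fun j hj => ?_)
  rw [Pt_split hj, ← Finset.sum_neg_distrib]
  refine Finset.sum_le_sum (fun T _ => ?_)
  rw [← mul_neg]
  apply mul_le_mul_of_nonneg_left _ (wt_nonneg _ h0 h1 T)
  have e1 : en μ j (ce μ (F \ insert i (insert j T)) (gg A i)) = 0 := by
    apply en_zero_of_dep (ce_dep _ _)
    simp
  rw [e1, sdiff_insert_insert]
  have h2 := nsq_ce_erase hμ (F \ insert i T) j (gg A i)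
  have h3 := en_nonneg hμ j (ce μ (F \ insert i T) (gg A i))
  nlinarith

lemma Fg'_nonpos (A : Finset (ι → Bool)) (hμ : ∀ x, 0 ≤ μ x) (F : Finset ι) {t : ℝ}
    (h0 : 0 ≤ t) (h1 : t ≤ 1) : Fg' A μ F t ≤ 0 := by
  have h2 := Eg_le A hμ F h0 h1
  have h3 : 0 ≤ Eg A μ F t := by
    unfold Eg Pt
    exact Finset.sum_nonneg (fun i _ => Finset.sum_nonneg (fun T _ =>
      mul_nonneg (wt_nonneg F h0 h1 T) (Finset.sum_nonneg (fun j _ => en_nonneg hμ _ _))))
  linarith

lemma Fg_anti (A : Finset (ι → Bool)) (hμ : ∀ x, 0 ≤ μ x) (F : Finset ι) {s t : ℝ}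
    (h0 : 0 ≤ s) (hst : s ≤ t) (h1 : t ≤ 1) : Fg A μ F t ≤ Fg A μ F s := by
  have := sub_le_of_deriv (G := fun t => - Fg A μ F t) (G' := fun t => - Fg' A μ F t)
    (fun t => (hasDerivAt_Fg A F t).neg) (c := 0) hst
    (fun u hu1 hu2 => by
      have := Fg'_nonpos A hμ F (h0.trans hu1.le) (hu2.le.trans h1)
      linarith)
  linarith

/-- second entropy bound. -/
lemma DR_le' (A : Finset (ι → Bool)) (hμ : ∀ x, 0 ≤ μ x) (hA : ∀ x, x ∉ A → μ x = 0)
    (hm : ∑ x, μ x = 1) (F : Finset ι) {t0 : ℝ} (h0 : 0 ≤ t0) (h1 : t0 ≤ 1) :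
    DR μ F ≤ t0 * (∑ j ∈ F, (hard A μ j + soft A μ j)) + 2 * Fg A μ F t0
      + 2 * ∑ j ∈ F, soft A μ j := by
  set G : ℝ → ℝ := fun t => Pt F t (fun T => DR μ (F \ T)) with hG
  set G' : ℝ → ℝ := fun t => ∑ j ∈ F, ∑ T ∈ (F.erase j).powerset,
    wt (F.erase j) t T * (DR μ (F \ insert j T) - DR μ (F \ T)) with hG'
  have hd : ∀ t, HasDerivAt G (G' t) t := fun t => hasDerivAt_Pt F _ t
  have hG0 : G 0 = DR μ F := by simp only [hG, Pt_zero, Finset.sdiff_empty]
  have hG1 : G 1 = 0 := by simp only [hG, Pt_one, Finset.sdiff_self, DR_empty hm]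
  -- pointwise
  have hp : ∀ t, 0 ≤ t → t ≤ 1 → ∀ j ∈ F, ∀ T ∈ (F.erase j).powerset,
      -(wt (F.erase j) t T * nsq μ (ce μ (F \ insert j T) (chi j)))
        ≤ wt (F.erase j) t T * (DR μ (F \ insert j T) - DR μ (F \ T)) := by
    intro t ht0 ht1 j hj T hT
    have hjT : j ∉ T := fun h => Finset.notMem_erase j F (Finset.mem_powerset.1 hT h)
    have e : F \ T = insert j (F \ insert j T) := by
      rw [sdiff_insert', Finset.insert_erase (Finset.mem_sdiff.2 ⟨hj, hjT⟩)]
    have h2 := DR_insert_le hμ hm (R := F \ insert j T) (j := j) (by simp)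
    rw [← e] at h2
    rw [← mul_neg]
    apply mul_le_mul_of_nonneg_left _ (wt_nonneg _ ht0 ht1 T)
    linarith
  have hA1 : ∀ t, 0 < t → t < t0 → -(∑ j ∈ F, (hard A μ j + soft A μ j)) ≤ G' t := by
    intro t ht0 ht1
    have ht1' : t ≤ 1 := ht1.le.trans h1
    simp only [hG']
    rw [← Finset.sum_neg_distrib]
    refine Finset.sum_le_sum (fun j hj => ?_)
    calc -(hard A μ j + soft A μ j)
        = ∑ T ∈ (F.erase j).powerset, wt (F.erase j) t T * (-(hard A μ j + soft A μ j)) := by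
          rw [← Finset.sum_mul, sum_wt, one_mul]
      _ ≤ _ := by
          refine Finset.sum_le_sum (fun T hT => ?_)
          refine le_trans ?_ (hp t ht0.le ht1' j hj T hT)
          rw [← mul_neg]
          apply mul_le_mul_of_nonneg_left _ (wt_nonneg _ ht0.le ht1' T)
          have := nsq_ce_chi_le A hμ hA (R := F \ insert j T) (j := j) (by simp)
          linarith
  have hA2 : ∀ t, t0 < t → t < 1 →
      -(2 * Fg A μ F t0 + 2 * ∑ j ∈ F, soft A μ j) ≤ G' t := by
    intro t ht0 ht1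
    have ht0' : 0 ≤ t := h0.trans ht0.le
    have hanti := Fg_anti A hμ F h0 ht0.le ht1.le
    have : -(2 * Fg A μ F t + 2 * ∑ j ∈ F, soft A μ j) ≤ G' t := by
      simp only [hG']
      unfold Fg
      rw [Finset.mul_sum, Finset.mul_sum, ← Finset.sum_add_distrib, ← Finset.sum_neg_distrib]
      refine Finset.sum_le_sum (fun j hj => ?_)
      rw [Pt_split hj]
      calc -(2 * (∑ T ∈ (F.erase j).powerset, wt (F.erase j) t T *
              ((1 - t) * nsq μ (ce μ (F \ insert j T) (gg A j))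
                + t * nsq μ (ce μ (F \ insert j (insert j T)) (gg A j)))) + 2 * soft A μ j)
          = ∑ T ∈ (F.erase j).powerset, wt (F.erase j) t T *
              (-(2 * nsq μ (ce μ (F \ insert j T) (gg A j)) + 2 * soft A μ j)) := by
            have e2 : 2 * soft A μ j
                = ∑ T ∈ (F.erase j).powerset, wt (F.erase j) t T * (2 * soft A μ j) := by
              rw [← Finset.sum_mul, sum_wt, one_mul]
            conv_lhs => rw [e2, Finset.mul_sum, ← Finset.sum_add_distrib,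
              ← Finset.sum_neg_distrib]
            refine Finset.sum_congr rfl (fun T _ => ?_)
            rw [Finset.insert_idem]
            ring
        _ ≤ _ := by
            refine Finset.sum_le_sum (fun T hT => ?_)
            refine le_trans ?_ (hp t ht0' ht1.le j hj T hT)
            rw [← mul_neg]
            apply mul_le_mul_of_nonneg_left _ (wt_nonneg _ ht0' ht1.le T)
            have := nsq_ce_chi_le' A hμ hA (R := F \ insert j T) (j := j) (by simp)
            linarith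
    linarith
  have b1 := sub_le_of_deriv hd h0 hA1
  have b2 := sub_le_of_deriv hd h1 hA2
  have hFg : 0 ≤ Fg A μ F t0 := Fg_nonneg A hμ F h0 h1
  have hS : 0 ≤ ∑ j ∈ F, soft A μ j := Finset.sum_nonneg (fun j _ => soft_nonneg A hμ j)
  rw [hG0] at b1
  rw [hG1] at b2
  nlinarith

/-- dissipation. -/
lemma exists_low_energy (A : Finset (ι → Bool)) (hμ : ∀ x, 0 ≤ μ x) (F : Finset ι) {t0 : ℝ}
    (h0 : 0 < t0) (h1 : t0 ≤ 1) :
    ∃ t, 0 ≤ t ∧ t ≤ 1 ∧ Fg A μ F t0 ≤ Fg A μ F t ∧ Eg A μ F t ≤ (∑ j ∈ F, hard A μ j) / t0 := by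
  obtain ⟨t, ht, hs⟩ := exists_hasDerivAt_eq_slope (Fg A μ F) (Fg' A μ F) h0
      (fun x _ => (hasDerivAt_Fg A F x).continuousAt.continuousWithinAt)
      (fun x _ => hasDerivAt_Fg A F x)
  refine ⟨t, ht.1.le, ht.2.le.trans h1, Fg_anti A hμ F ht.1.le ht.2.le h1, ?_⟩
  have e1 := Eg_le A hμ F ht.1.le (ht.2.le.trans h1)
  have e2 := Fg_zero_le A hμ F
  have e3 := Fg_nonneg A hμ F h0.le h1
  refine e1.trans ?_
  rw [hs, sub_zero, ← neg_div]
  apply div_le_div_of_nonneg_right _ h0.le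
  linarith

end Pool.Agent.TH385.KK
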