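import Pool.Agent.TH385.KK.Restrict

/-!
The iteration.
-/

set_option autoImplicit false
set_option linter.unusedSectionVars false

noncomputable section

namespace Pool.Agent.TH385.KK

open Finset

variable {ι : Type*} [Fintype ι] [DecidableEq ι]

/-- number of boundary edges, counted from inside. -/
def bd (A : Finset (ι → Bool)) : ℕ := ∑ j : ι, (A.filter (fun x => fl j x ∉ A)).card

/-- uniform measure on `A`. -/
def unif (A : Finset (ι → Bool)) (x : ι → Bool) : ℝ := if x ∈ A then ((A.card : ℝ))⁻¹ else 0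

lemma unif_mem {A : Finset (ι → Bool)} (hA : A.Nonempty) (c : ι → Bool) :
    unif A ∈ PS (supp A Finset.univ c) := by
  have hN : (0 : ℝ) < A.card := by exact_mod_cast Finset.card_pos.2 hA
  refine ⟨fun x => ?_, ?_, fun x hx => ?_⟩
  · unfold unif; split_ifs <;> positivity
  · unfold unif
    rw [Finset.sum_ite_mem, Finset.univ_inter, Finset.sum_const, nsmul_eq_mul]
    field_simp
  · unfold unif
    rw [if_neg]
    intro h
    apply hx
    exact Finset.mem_filter.2 ⟨h, fun i hi => absurd (Finset.mem_univ i) hi⟩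

lemma Jf_unif (M : ℝ) {A : Finset (ι → Bool)} (hA : A.Nonempty) :
    Jf M A Finset.univ (unif A) = (bd A : ℝ) / A.card
      - 1 / 2 * (Fintype.card ι * Real.log 2 - Real.log A.card) := by
  have hN : (0 : ℝ) < A.card := by exact_mod_cast Finset.card_pos.2 hA
  have h1 : ∀ j, hard A (unif A) j = ((A.filter (fun x => fl j x ∉ A)).card : ℝ) / A.card := by
    intro j
    unfold hard unif
    have : ∀ x, (if x ∈ A then ((A.card : ℝ))⁻¹ else 0) * (if fl j x ∈ A then (0:ℝ) else 1)
        = if x ∈ A.filter (fun x => fl j x ∉ A) then ((A.card : ℝ))⁻¹ else 0 := by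
      intro x
      by_cases hx : x ∈ A <;> by_cases hf : fl j x ∈ A <;> simp [hx, hf]
    rw [Finset.sum_congr rfl (fun x _ => this x), Finset.sum_ite_mem, Finset.univ_inter,
      Finset.sum_const, nsmul_eq_mul]
    field_simp
  have h2 : ∀ j, soft A (unif A) j = 0 := by
    intro j
    unfold soft unif psi
    refine Finset.sum_eq_zero (fun x _ => ?_)
    by_cases hx : x ∈ A <;> by_cases hf : fl j x ∈ A <;> simp [hx, hf]
  have h3 : ∑ x, unif A x * Real.log (unif A x) = - Real.log A.card := by
    unfold unif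
    have : ∀ x, (if x ∈ A then ((A.card : ℝ))⁻¹ else 0)
        * Real.log (if x ∈ A then ((A.card : ℝ))⁻¹ else 0)
        = if x ∈ A then ((A.card : ℝ))⁻¹ * (- Real.log A.card) else 0 := by
      intro x
      by_cases hx : x ∈ A <;> simp [hx]
    rw [Finset.sum_congr rfl (fun x _ => this x), Finset.sum_ite_mem, Finset.univ_inter,
      Finset.sum_const, nsmul_eq_mul]
    field_simp
  unfold Jf
  rw [h3, Finset.sum_congr rfl (fun j _ => by rw [h1 j, h2 j])]
  simp only [mul_zero, add_zero]
  rw [← Finset.sum_div, Finset.card_univ]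
  unfold bd
  push_cast
  ring

/-- The main iteration. -/
theorem exists_dense {L0 δ : ℝ} (hL0 : 1 ≤ L0) (hδ0 : 0 < δ) (hδ : (1 + δ) ^ 2 ≤ 2)
    {A : Finset (ι → Bool)} (hA : A.Nonempty)
    (hhalf : (A.card : ℝ) / 2 ^ Fintype.card ι ≤ 1 / 2)
    (hbd : (bd A : ℝ) ≤ L0 * A.card * (Fintype.card ι * Real.log 2 - Real.log A.card)) :
    ∃ F : Finset ι, ∃ c : ι → Bool,
      (Fintype.card ι - F.card : ℝ) ≤ 2 * L0 / epsL (2 * L0)
        * (Fintype.card ι * Real.log 2 - Real.log A.card) ∧
      (1 + δ) * ((A.card : ℝ) / 2 ^ Fintype.card ι) ≤ ((supp A F c).card : ℝ) / 2 ^ F.card := by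
  set n := Fintype.card ι with hn
  set ℓ : ℝ := n * Real.log 2 - Real.log A.card with hℓ
  have hN : (0 : ℝ) < A.card := by exact_mod_cast Finset.card_pos.2 hA
  have hlog2 : 0 < Real.log 2 := Real.log_pos (by norm_num)
  have hℓ2 : Real.log 2 ≤ ℓ := by
    have h1 : Real.log ((A.card : ℝ) / 2 ^ n) ≤ Real.log (1 / 2) :=
      Real.log_le_log (by positivity) hhalf
    rw [Real.log_div hN.ne' (by positivity), Real.log_pow, Real.log_div (by norm_num) (by norm_num),
      Real.log_one] at h1
    rw [hℓ]; linarith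
  have hℓ0 : 0 < ℓ := by linarith
  have hlogδ : Real.log (1 + δ) ≤ ℓ / 2 := by
    have h1 : Real.log ((1 + δ) ^ 2) ≤ Real.log 2 := Real.log_le_log (by positivity) hδ
    rw [Real.log_pow] at h1
    push_cast at h1
    linarith
  set ε := epsL (2 * L0) with hε
  have hε0 : 0 < ε := epsL_pos (by linarith)
  set M : ℝ := 16 * (2 * L0) + 1 / 2 with hM
  have hM2 : 1 / 2 ≤ M := by rw [hM]; linarith
  by_contra hc
  push Not at hc
  set K := ⌊2 * L0 / ε * ℓ⌋₊ with hK
  have hKle : (K : ℝ) ≤ 2 * L0 / ε * ℓ := Nat.floor_le (by positivity)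
  have hKlt : 2 * L0 / ε * ℓ < K + 1 := Nat.lt_floor_add_one _
  -- main claim
  have claim : ∀ k : ℕ, k ≤ K + 1 → ∃ F : Finset ι, F.card + k = n ∧ ∃ c : ι → Bool,
      ∃ ν ∈ PS (supp A F c), Jf M A F ν ≤ L0 * ℓ - k * (ε / 2) := by
    intro k
    induction k with
    | zero =>
      intro _
      refine ⟨Finset.univ, by rw [Finset.card_univ, hn, add_zero], fun _ => true, unif A,
        unif_mem hA _, ?_⟩
      rw [Jf_unif M hA, ← hn, ← hℓ]
      have h1 : (bd A : ℝ) / A.card ≤ L0 * ℓ := by
        rw [div_le_iff₀ hN]; linarith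
      push_cast
      linarith
    | succ k ih =>
      intro hk
      obtain ⟨F, hF, c, ν, hν, hJ⟩ := ih (by omega)
      obtain ⟨μ, hμ, hmin⟩ := exists_min M A (supp A F c) F ⟨ν, hν⟩
      have hJμ : Jf M A F μ ≤ L0 * ℓ - k * (ε / 2) := (hmin ν hν).trans hJ
      have hcodim : (n - F.card : ℝ) = k := by
        have : (n : ℝ) = F.card + k := by rw [← hF]; push_cast; ring
        rw [this]; ring
      have hdens := hc F c (by
        rw [hcodim]
        have : (k : ℝ) ≤ K := by exact_mod_cast (by omega : k ≤ K)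
        linarith)
      -- l
      set l : ℝ := F.card * Real.log 2 - Real.log (supp A F c).card with hl
      have hSne : (supp A F c).Nonempty := by
        by_contra h
        rw [Finset.not_nonempty_iff_eq_empty] at h
        have : ∑ x, μ x = 0 := Finset.sum_eq_zero (fun x _ => hμ.2.2 x (by rw [h]; simp))
        have h2 := hμ.2.1
        rw [this] at h2
        norm_num at h2
      have hSpos : (0 : ℝ) < (supp A F c).card := by exact_mod_cast Finset.card_pos.2 hSne
      have hlge : ℓ / 2 ≤ l := by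
        have h1 := Real.log_le_log (by positivity) hdens.le
        rw [Real.log_div hSpos.ne' (by positivity), Real.log_pow,
          Real.log_mul (by positivity) (by positivity),
          Real.log_div hN.ne' (by positivity), Real.log_pow] at h1
        rw [hl]; linarith
      have hl0 : 0 < l := by linarith
      have hkε : 0 ≤ (k : ℝ) * (ε / 2) := by positivity
      have hJl : Jf M A F μ ≤ 2 * L0 * l := by nlinarith
      obtain ⟨i, hi, hhard⟩ := key (L1 := 2 * L0) (by linarith) hl0 (supp_subset A F c) hμ hmin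
        (DR_eq hμ) (DR_ge hμ) hJl
      obtain ⟨c', ν', hν', hJ'⟩ := exists_restrict hM2 hi hμ
      refine ⟨F.erase i, ?_, c', ν', hν', ?_⟩
      · rw [Finset.card_erase_of_mem hi]
        have := Finset.card_pos.2 ⟨i, hi⟩
        omega
      · push_cast
        rw [← hε] at hhard
        linarith
  obtain ⟨F, -, c, ν, hν, hJ⟩ := claim (K + 1) le_rfl
  have h0 := Jf_nonneg hM2 hν
  push_cast at hJ
  have h1 : 2 * L0 * ℓ < (K + 1) * ε := by
    have : 2 * L0 / ε * ℓ = 2 * L0 * ℓ / ε := by ring
    rw [this, div_lt_iff₀ hε0] at hKlt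
    exact hKlt
  linarith

end Pool.Agent.TH385.KK
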