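import Pool.Agent.TH385.KK.LSI

/-!
The key lemma: at a minimizer with small functional value some coordinate has a large
hard boundary.
-/

set_option autoImplicit false
set_option linter.unusedSectionVars false

noncomputable section

namespace Pool.Agent.TH385.KK

open Finset

variable {ι : Type*} [Fintype ι] [DecidableEq ι]
variable {μ : (ι → Bool) → ℝ}

/-- pointwise inequality. -/
lemma pointwise {h m ε τ Λ : ℝ} (hm : 0 < m) (hε : m ≤ ε) (hτ : 0 < τ)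
    (hΛ : Λ = Real.log (τ ^ 2 / ε)) (hΛ0 : 0 ≤ Λ) :
    Λ * (h ^ 2 - τ * |h|) - m ≤ h ^ 2 * Real.log (h ^ 2) - h ^ 2 * Real.log m := by
  have hε0 : 0 < ε := lt_of_lt_of_le hm hε
  by_cases h0 : h = 0
  · rw [h0]; simp; exact hm.le
  have hh : 0 < h ^ 2 := by positivity
  have hha : 0 < |h| := abs_pos.2 h0
  have hsq : |h| ^ 2 = h ^ 2 := sq_abs h
  by_cases hc : τ ≤ |h|
  · have h1 : Real.log (τ ^ 2) ≤ Real.log (h ^ 2) := by
      apply Real.log_le_log (by positivity)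
      rw [← hsq]; exact pow_le_pow_left₀ hτ.le hc 2
    have h2 : Real.log m ≤ Real.log ε := Real.log_le_log hm hε
    have h3 : Λ ≤ Real.log (h ^ 2) - Real.log m := by
      rw [hΛ, Real.log_div (by positivity) hε0.ne']; linarith
    have h4 : h ^ 2 * Λ ≤ h ^ 2 * (Real.log (h ^ 2) - Real.log m) :=
      mul_le_mul_of_nonneg_left h3 hh.le
    have h5 : 0 ≤ Λ * (τ * |h|) := by positivity
    nlinarith
  · push Not at hc
    have h1 : h ^ 2 - τ * |h| ≤ 0 := by rw [← hsq]; nlinarith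
    have h2 : Λ * (h ^ 2 - τ * |h|) ≤ 0 := mul_nonpos_of_nonneg_of_nonpos hΛ0 h1
    have h3 := Real.log_le_sub_one_of_pos (show 0 < m / h ^ 2 by positivity)
    rw [Real.log_div hm.ne' hh.ne'] at h3
    have h4 : h ^ 2 * (Real.log m - Real.log (h ^ 2)) ≤ h ^ 2 * (m / h ^ 2 - 1) :=
      mul_le_mul_of_nonneg_left h3 hh.le
    have h5 : h ^ 2 * (m / h ^ 2 - 1) = m - h ^ 2 := by field_simp
    nlinarith

/-- the influence threshold. -/
def epsL (L : ℝ) : ℝ :=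
  (1 / (16 * L)) ^ 2 * Real.exp (-(8 * L + 3072 * (16 * L + 1 / 2) * L ^ 2 + 1))

lemma epsL_pos {L : ℝ} (hL : 1 ≤ L) : 0 < epsL L := by
  unfold epsL
  have : 0 < L := by linarith
  positivity

/-- one pair `(i,T)`. -/
lemma pair_bound {M : ℝ} (hM : 0 ≤ M) {A S : Finset (ι → Bool)} {F : Finset ι}
    (hP : μ ∈ PS S) (hmin : ∀ ν ∈ PS S, Jf M A F μ ≤ Jf M A F ν)
    {ε τ Λ : ℝ} (hτ : 0 < τ) (hΛ : Λ = Real.log (τ ^ 2 / ε)) (hΛ0 : 0 ≤ Λ)
    (i : ι) (hi : hard A μ i ≤ ε) (R : Finset ι) :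
    1 / 2 * (Λ * (nsq μ (ce μ R (gg A i)) - τ * hard A μ i) - nsq μ (ce μ R (gg A i)))
      ≤ 8 * M * ∑ j ∈ F, en μ j (ce μ R (gg A i)) := by
  have hP' := hP
  obtain ⟨hμ, hm, hS⟩ := hP
  set h := ce μ R (gg A i) with hdef
  have hE : 0 ≤ 8 * M * ∑ j ∈ F, en μ j h :=
    mul_nonneg (by positivity) (Finset.sum_nonneg (fun j _ => en_nonneg hμ _ _))
  have hn : 0 ≤ nsq μ h := nsq_nonneg hμ h
  have hle : nsq μ h ≤ hard A μ i := by
    rw [← nsq_gg]; exact nsq_ce_le hμ R _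
  have habs : ∑ x, μ x * |h x| ≤ hard A μ i := by
    rw [← sum_abs_gg]; exact sum_abs_ce_le hμ R _
  rcases hn.eq_or_lt with h0 | hpos
  · rw [← h0]
    have : 0 ≤ Λ * (τ * hard A μ i) := by
      have := hard_nonneg A hμ i
      positivity
    linarith
  · refine le_trans ?_ (lsi hM hP' hmin h hpos)
    apply mul_le_mul_of_nonneg_left _ (by norm_num : (0:ℝ) ≤ 1 / 2)
    have h1 : ∑ x, μ x * (Λ * (h x ^ 2 - τ * |h x|) - nsq μ h)
        ≤ ∑ x, μ x * (h x ^ 2 * Real.log (h x ^ 2) - h x ^ 2 * Real.log (nsq μ h)) :=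
      Finset.sum_le_sum (fun x _ => mul_le_mul_of_nonneg_left
        (pointwise hpos (hle.trans hi) hτ hΛ hΛ0) (hμ x))
    have h2 : ∑ x, μ x * (Λ * (h x ^ 2 - τ * |h x|) - nsq μ h)
        = Λ * (nsq μ h - τ * ∑ x, μ x * |h x|) - nsq μ h := by
      have e1 : ∑ x, μ x * (Λ * (h x ^ 2 - τ * |h x|) - nsq μ h)
          = Λ * ∑ x, μ x * h x ^ 2 - Λ * τ * ∑ x, μ x * |h x| - (∑ x, μ x) * nsq μ h := by
        rw [Finset.mul_sum, Finset.mul_sum, Finset.sum_mul, ← Finset.sum_sub_distrib,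
          ← Finset.sum_sub_distrib]
        exact Finset.sum_congr rfl (fun x _ => by ring)
      rw [e1, hm]
      have e2 : ∑ x, μ x * h x ^ 2 = nsq μ h := rfl
      rw [e2]; ring
    have h3 : ∑ x, μ x * (h x ^ 2 * Real.log (h x ^ 2) - h x ^ 2 * Real.log (nsq μ h))
        = ∑ x, μ x * (h x ^ 2 * Real.log (h x ^ 2)) - nsq μ h * Real.log (nsq μ h) := by
      have e1 : ∑ x, μ x * (h x ^ 2 * Real.log (h x ^ 2) - h x ^ 2 * Real.log (nsq μ h))
          = ∑ x, μ x * (h x ^ 2 * Real.log (h x ^ 2))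
            - (∑ x, μ x * h x ^ 2) * Real.log (nsq μ h) := by
        rw [Finset.sum_mul, ← Finset.sum_sub_distrib]
        exact Finset.sum_congr rfl (fun x _ => by ring)
      rw [e1]
      rfl
    rw [h2, h3] at h1
    refine le_trans ?_ h1
    have h4 : Λ * (τ * ∑ x, μ x * |h x|) ≤ Λ * (τ * hard A μ i) := by gcongr
    linarith

lemma key {L1 l : ℝ} (hL1 : 1 ≤ L1) (hl : 0 < l) {A S : Finset (ι → Bool)} {F : Finset ι}
    (hSA : S ⊆ A) (hP : μ ∈ PS S)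
    (hmin : ∀ ν ∈ PS S, Jf (16 * L1 + 1 / 2) A F μ ≤ Jf (16 * L1 + 1 / 2) A F ν)
    (hD : DR μ F = ∑ x, μ x * Real.log (μ x) + F.card * Real.log 2)
    (hlD : l ≤ DR μ F) (hJ : Jf (16 * L1 + 1 / 2) A F μ ≤ L1 * l) :
    ∃ i ∈ F, epsL L1 ≤ hard A μ i := by
  have hP' := hP
  obtain ⟨hμ, hm, hS⟩ := hP
  have hA : ∀ x, x ∉ A → μ x = 0 := fun x hx => hS x (fun h => hx (hSA h))
  by_contra hc
  push Not at hc
  set M : ℝ := 16 * L1 + 1 / 2 with hMdef
  set Hd := ∑ j ∈ F, hard A μ j with hHd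
  set Ps := ∑ j ∈ F, soft A μ j with hPs
  have hHd0 : 0 ≤ Hd := Finset.sum_nonneg (fun j _ => hard_nonneg A hμ j)
  have hPs0 : 0 ≤ Ps := Finset.sum_nonneg (fun j _ => soft_nonneg A hμ j)
  have hsum : ∑ j ∈ F, (hard A μ j + soft A μ j) = Hd + Ps := Finset.sum_add_distrib
  have hJe : Jf M A F μ = Hd + M * Ps - 1 / 2 * DR μ F := by
    unfold Jf
    rw [← hD, Finset.sum_add_distrib, ← Finset.mul_sum]
  have hD1 := DR_le A hμ hA hm F
  rw [hsum] at hD1
  rw [hJe] at hJ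
  have hM0 : 0 ≤ M := by rw [hMdef]; linarith
  have hPs1 : Ps ≤ l / 16 := by
    have : 16 * L1 * Ps ≤ L1 * l := by
      rw [hMdef] at hJ; nlinarith
    have : L1 * (16 * Ps) ≤ L1 * l := by linarith
    have := le_of_mul_le_mul_left this (by linarith)
    linarith
  have hHd1 : Hd ≤ 2 * L1 * l := by
    have : 0 ≤ 16 * L1 * Ps := by positivity
    rw [hMdef] at hJ; nlinarith
  -- t0
  set t0 : ℝ := 1 / (24 * L1) with ht0
  have hL0 : 0 < L1 := by linarith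
  have ht00 : 0 < t0 := by positivity
  have ht01 : t0 ≤ 1 := by
    rw [ht0, div_le_one (by positivity)]; linarith
  have hD2 := DR_le' A hμ hA hm F ht00.le ht01
  rw [hsum] at hD2
  have hprod : t0 * (Hd + Ps) ≤ l / 12 + l / 384 := by
    have e1 : t0 * Hd ≤ l / 12 := by
      have : t0 * Hd ≤ t0 * (2 * L1 * l) := mul_le_mul_of_nonneg_left hHd1 ht00.le
      have e : t0 * (2 * L1 * l) = l / 12 := by rw [ht0]; field_simp; norm_num
      linarith
    have e2 : t0 * Ps ≤ l / 384 := by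
      have h24 : t0 ≤ 1 / 24 := by
        rw [ht0]; apply one_div_le_one_div_of_le (by norm_num); linarith
      have : t0 * Ps ≤ 1 / 24 * (l / 16) := mul_le_mul h24 hPs1 hPs0 (by norm_num)
      linarith
    linarith
  have hFg : 3 / 8 * l ≤ Fg A μ F t0 := by
    nlinarith
  obtain ⟨t, ht1, ht2, hFt, hEt⟩ := exists_low_energy A hμ F ht00 ht01
  -- Lambda
  set τ : ℝ := 1 / (16 * L1) with hτ
  have hτ0 : 0 < τ := by positivity
  have hε0 : 0 < epsL L1 := epsL_pos hL1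
  set Λ : ℝ := Real.log (τ ^ 2 / epsL L1) with hΛ
  have hΛe : Λ = 8 * L1 + 3072 * M * L1 ^ 2 + 1 := by
    rw [hΛ]
    have : τ ^ 2 / epsL L1 = Real.exp (8 * L1 + 3072 * M * L1 ^ 2 + 1) := by
      unfold epsL
      rw [← hτ, ← hMdef, Real.exp_neg]
      have : Real.exp (8 * L1 + 3072 * M * L1 ^ 2 + 1) ≠ 0 := (Real.exp_pos _).ne'
      field_simp
    rw [this, Real.log_exp]
  have hΛ0 : 0 ≤ Λ := by
    rw [hΛe]; positivity
  have hpair : ∀ i ∈ F, ∀ T : Finset ι,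
      1 / 2 * (Λ * (nsq μ (ce μ (F \ insert i T) (gg A i)) - τ * hard A μ i)
        - nsq μ (ce μ (F \ insert i T) (gg A i)))
      ≤ 8 * M * ∑ j ∈ F, en μ j (ce μ (F \ insert i T) (gg A i)) := fun i hi T =>
    pair_bound hM0 hP' hmin hτ0 hΛ hΛ0 i (hc i hi).le _
  have hsumi : ∑ i ∈ F, Pt F t (fun T =>
        1 / 2 * (Λ * (nsq μ (ce μ (F \ insert i T) (gg A i)) - τ * hard A μ i)
        - nsq μ (ce μ (F \ insert i T) (gg A i))))
      ≤ 8 * M * Eg A μ F t := by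
    unfold Eg
    rw [Finset.mul_sum]
    refine Finset.sum_le_sum (fun i hi => ?_)
    rw [← Pt_smul]
    exact Pt_mono F ht1 ht2 (fun T _ => hpair i hi T)
  have hlhs : ∑ i ∈ F, Pt F t (fun T =>
        1 / 2 * (Λ * (nsq μ (ce μ (F \ insert i T) (gg A i)) - τ * hard A μ i)
        - nsq μ (ce μ (F \ insert i T) (gg A i))))
      = 1 / 2 * (Λ * (Fg A μ F t - τ * Hd) - Fg A μ F t) := by
    have e1 : ∀ i, Pt F t (fun T =>
        1 / 2 * (Λ * (nsq μ (ce μ (F \ insert i T) (gg A i)) - τ * hard A μ i)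
        - nsq μ (ce μ (F \ insert i T) (gg A i))))
        = (1 / 2 * (Λ - 1)) * Pt F t (fun T => nsq μ (ce μ (F \ insert i T) (gg A i)))
          + (- (1 / 2 * Λ * τ)) * hard A μ i := by
      intro i
      rw [← Pt_smul, ← Pt_const F t ((- (1 / 2 * Λ * τ)) * hard A μ i), ← Pt_add]
      unfold Pt
      refine Finset.sum_congr rfl (fun T _ => ?_)
      have : Pt F t (fun _ => (- (1 / 2 * Λ * τ)) * hard A μ i)
        = (- (1 / 2 * Λ * τ)) * hard A μ i := Pt_const F t _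
      unfold Pt at this
      try rw [this]
      ring
    rw [Finset.sum_congr rfl (fun i _ => e1 i), Finset.sum_add_distrib, ← Finset.mul_sum,
      ← Finset.mul_sum]
    unfold Fg
    rw [hHd]
    ring
  rw [hlhs] at hsumi
  have hFtHd : Fg A μ F t ≤ Hd :=
    (Fg_anti A hμ F le_rfl ht1 ht2).trans (Fg_zero_le A hμ F)
  have hEt2 : Eg A μ F t ≤ 48 * L1 ^ 2 * l := by
    refine hEt.trans ?_
    rw [ht0, div_le_iff₀ (by positivity)]
    have : 48 * L1 ^ 2 * l * (1 / (24 * L1)) = 2 * L1 * l := by field_simp; norm_num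
    rw [this]; exact hHd1
  have f1 : 8 * M * Eg A μ F t ≤ 8 * M * (48 * L1 ^ 2 * l) :=
    mul_le_mul_of_nonneg_left hEt2 (by positivity)
  have f2 : τ * Hd ≤ l / 8 := by
    have : τ * Hd ≤ τ * (2 * L1 * l) := mul_le_mul_of_nonneg_left hHd1 hτ0.le
    have e : τ * (2 * L1 * l) = l / 8 := by rw [hτ]; field_simp; norm_num
    linarith
  have f3 : l / 4 ≤ Fg A μ F t - τ * Hd := by linarith
  have f4 : Λ * (l / 4) ≤ Λ * (Fg A μ F t - τ * Hd) := mul_le_mul_of_nonneg_left f3 hΛ0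
  have f5 : Λ * (l / 4) - 2 * L1 * l ≤ 16 * M * (48 * L1 ^ 2 * l) := by linarith
  have f6 : l * (Λ / 4 - 2 * L1 - 768 * M * L1 ^ 2) ≤ 0 := by nlinarith
  have f7 : Λ / 4 - 2 * L1 - 768 * M * L1 ^ 2 = 1 / 4 := by rw [hΛe]; ring
  rw [f7] at f6
  linarith

end Pool.Agent.TH385.KK
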