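import Pool.Agent.TH385.KK.Ent

/-!
The variational functional, its minimizer, and the log-Sobolev inequality it satisfies.
-/

set_option autoImplicit false
set_option linter.unusedSectionVars false

noncomputable section

namespace Pool.Agent.TH385.KK

open Finset

variable {ι : Type*} [Fintype ι] [DecidableEq ι]
variable {μ : (ι → Bool) → ℝ}

/-- derivative of the soft cost in the first variable. -/
def psi1 (a b : ℝ) : ℝ := 1 - 4 * b ^ 2 / (a + b) ^ 2

/-- convexity remainder of the soft cost. -/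
def rem (a b k k' : ℝ) : ℝ :=
  4 * a ^ 2 * b ^ 2 * (k - k') ^ 2 / ((a + b) ^ 2 * (k * a + k' * b))

lemma psi_identity {a b k k' : ℝ} (ha : 0 ≤ a) (hb : 0 ≤ b) (hk : 0 ≤ k) (hk' : 0 ≤ k') :
    psi (k * a) (k' * b) = psi1 a b * (k * a) + psi1 b a * (k' * b) + rem a b k k' := by
  unfold psi psi1 rem
  by_cases hz : k * a + k' * b = 0
  · have h1 : k * a = 0 := by nlinarith [mul_nonneg hk ha, mul_nonneg hk' hb]
    have h2 : k' * b = 0 := by nlinarith [mul_nonneg hk ha, mul_nonneg hk' hb]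
    rw [h1, h2]; simp
  · have hab : a + b ≠ 0 := by
      intro h
      apply hz
      have h1 : a = 0 := by linarith
      have h2 : b = 0 := by linarith
      rw [h1, h2]; simp
    have hba : b + a ≠ 0 := by rwa [add_comm]
    rw [add_comm b a]
    field_simp
    ring

lemma rem_le {a b h h' : ℝ} (ha : 0 ≤ a) (hb : 0 ≤ b) :
    rem a b (h ^ 2) (h' ^ 2) ≤ 8 * (a * b / (a + b)) * (h - h') ^ 2 := by
  unfold rem
  by_cases hz : h ^ 2 * a + h' ^ 2 * b = 0
  · rw [hz]; simp; positivity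
  · have hab : a + b ≠ 0 := by
      intro h
      apply hz
      have h1 : a = 0 := by linarith
      have h2 : b = 0 := by linarith
      rw [h1, h2]; simp
    have hab' : 0 < a + b := lt_of_le_of_ne (by linarith) (Ne.symm hab)
    have hz' : 0 < h ^ 2 * a + h' ^ 2 * b := lt_of_le_of_ne (by positivity) (Ne.symm hz)
    rw [div_le_iff₀ (by positivity)]
    have e : 8 * (a * b / (a + b)) * (h - h') ^ 2 * ((a + b) ^ 2 * (h ^ 2 * a + h' ^ 2 * b))
        = 4 * (a * b) * (h - h') ^ 2 * (2 * (a + b) * (h ^ 2 * a + h' ^ 2 * b)) := by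
      field_simp
      ring
    rw [e]
    have e2 : 4 * a ^ 2 * b ^ 2 * (h ^ 2 - h' ^ 2) ^ 2
        = 4 * (a * b) * (h - h') ^ 2 * ((a * b) * (h + h') ^ 2) := by ring
    rw [e2]
    apply mul_le_mul_of_nonneg_left _ (by positivity)
    nlinarith [mul_nonneg (mul_nonneg ha hb) (sq_nonneg (h - h')), mul_nonneg ha ha,
      mul_nonneg hb hb, mul_nonneg (mul_nonneg ha ha) (sq_nonneg h),
      mul_nonneg (mul_nonneg hb hb) (sq_nonneg h')]

lemma rem_nonneg {a b k k' : ℝ} (ha : 0 ≤ a) (hb : 0 ≤ b) (hk : 0 ≤ k) (hk' : 0 ≤ k') :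
    0 ≤ rem a b k k' := by
  unfold rem; positivity

lemma rem_small {a b k k' v v' r : ℝ} (ha : 0 ≤ a) (hb : 0 ≤ b)
    (hk : 1 / 2 ≤ k) (hk' : 1 / 2 ≤ k') (hd : k - k' = r * (v - v')) :
    rem a b k k' ≤ r ^ 2 * (8 * a ^ 2 * b ^ 2 * (v - v') ^ 2 / (a + b) ^ 3) := by
  unfold rem
  rw [hd]
  by_cases hab : a + b = 0
  · rw [hab]; simp
  · have hab' : 0 < a + b := lt_of_le_of_ne (by linarith) (Ne.symm hab)
    have h1 : (a + b) / 2 ≤ k * a + k' * b := by nlinarith
    have h2 : 0 < k * a + k' * b := by linarith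
    rw [div_le_iff₀ (by positivity)]
    have e : r ^ 2 * (8 * a ^ 2 * b ^ 2 * (v - v') ^ 2 / (a + b) ^ 3)
          * ((a + b) ^ 2 * (k * a + k' * b))
        = (8 * a ^ 2 * b ^ 2 * r ^ 2 * (v - v') ^ 2) * ((k * a + k' * b) / (a + b)) := by
      field_simp
    rw [e]
    have h3 : 1 / 2 ≤ (k * a + k' * b) / (a + b) := by
      rw [le_div_iff₀ hab']; linarith
    have h4 : 0 ≤ 8 * a ^ 2 * b ^ 2 * r ^ 2 * (v - v') ^ 2 := by positivity
    nlinarith

/-- the functional. -/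
def Jf (M : ℝ) (A : Finset (ι → Bool)) (F : Finset ι) (μ : (ι → Bool) → ℝ) : ℝ :=
  ∑ j ∈ F, (hard A μ j + M * soft A μ j)
    - 1 / 2 * (∑ x, μ x * Real.log (μ x) + F.card * Real.log 2)

/-- potential. -/
def Wp (M : ℝ) (A : Finset (ι → Bool)) (F : Finset ι) (μ : (ι → Bool) → ℝ)
    (x : ι → Bool) : ℝ :=
  ∑ j ∈ F, ((if fl j x ∈ A then 0 else 1)
    + M * (if x ∈ A ∧ fl j x ∈ A then psi1 (μ x) (μ (fl j x)) else 0))
    - 1 / 2 * Real.log (μ x)

/-- total remainder. -/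
def Bf (A : Finset (ι → Bool)) (F : Finset ι) (μ k : (ι → Bool) → ℝ) : ℝ :=
  ∑ j ∈ F, ∑ x, 1 / 2 * (if x ∈ A ∧ fl j x ∈ A then
    rem (μ x) (μ (fl j x)) (k x) (k (fl j x)) else 0)

lemma soft_mul (A : Finset (ι → Bool)) (hμ : ∀ x, 0 ≤ μ x) {k : (ι → Bool) → ℝ}
    (hk : ∀ x, 0 ≤ k x) (j : ι) :
    soft A (fun x => k x * μ x) j
      = ∑ x, (if x ∈ A ∧ fl j x ∈ A then psi1 (μ x) (μ (fl j x)) else 0) * (k x * μ x)
        + ∑ x, 1 / 2 * (if x ∈ A ∧ fl j x ∈ A then
            rem (μ x) (μ (fl j x)) (k x) (k (fl j x)) else 0) := by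
  unfold soft
  rw [sum_half j (fun x => (if x ∈ A ∧ fl j x ∈ A then psi1 (μ x) (μ (fl j x)) else 0)
    * (k x * μ x)), ← Finset.sum_add_distrib]
  refine Finset.sum_congr rfl (fun x _ => ?_)
  rw [fl_fl]
  by_cases hx : x ∈ A
  · by_cases hf : fl j x ∈ A
    · simp only [hx, hf, and_self, if_true]
      rw [psi_identity (hμ x) (hμ _) (hk x) (hk _)]
      ring
    · simp [hf]
  · simp [hx]

lemma mul_log_mul (k m : ℝ) : k * m * Real.log (k * m)
    = k * m * Real.log m + m * (k * Real.log k) := by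
  by_cases hk : k = 0
  · rw [hk]; simp
  · by_cases hm : m = 0
    · rw [hm]; simp
    · rw [Real.log_mul hk hm]; ring

lemma Jf_mul (M : ℝ) (A : Finset (ι → Bool)) (F : Finset ι) (hμ : ∀ x, 0 ≤ μ x)
    {k : (ι → Bool) → ℝ} (hk : ∀ x, 0 ≤ k x) :
    Jf M A F (fun x => k x * μ x) = ∑ x, μ x * (k x * Wp M A F μ x) + M * Bf A F μ k
      - 1 / 2 * ∑ x, μ x * (k x * Real.log (k x)) - 1 / 2 * (F.card * Real.log 2) := by
  unfold Jf
  have h1 : ∑ j ∈ F, (hard A (fun x => k x * μ x) j + M * soft A (fun x => k x * μ x) j)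
      = ∑ j ∈ F, ∑ x, μ x * (k x * ((if fl j x ∈ A then 0 else 1)
          + M * (if x ∈ A ∧ fl j x ∈ A then psi1 (μ x) (μ (fl j x)) else 0)))
        + M * Bf A F μ k := by
    unfold Bf
    rw [Finset.mul_sum, ← Finset.sum_add_distrib]
    refine Finset.sum_congr rfl (fun j _ => ?_)
    rw [soft_mul A hμ hk j, mul_add, ← add_assoc]
    congr 1
    unfold hard
    rw [Finset.mul_sum, ← Finset.sum_add_distrib]
    refine Finset.sum_congr rfl (fun x _ => ?_)
    ring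
  have h2 : ∑ x, μ x * (k x * Wp M A F μ x)
      = ∑ j ∈ F, ∑ x, μ x * (k x * ((if fl j x ∈ A then 0 else 1)
          + M * (if x ∈ A ∧ fl j x ∈ A then psi1 (μ x) (μ (fl j x)) else 0)))
        - 1 / 2 * ∑ x, k x * μ x * Real.log (μ x) := by
    rw [Finset.sum_comm, Finset.mul_sum, ← Finset.sum_sub_distrib]
    refine Finset.sum_congr rfl (fun x _ => ?_)
    unfold Wp
    rw [← Finset.mul_sum, ← Finset.mul_sum]
    ring
  have h3 : ∑ x, k x * μ x * Real.log (k x * μ x)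
      = ∑ x, k x * μ x * Real.log (μ x) + ∑ x, μ x * (k x * Real.log (k x)) := by
    rw [← Finset.sum_add_distrib]
    exact Finset.sum_congr rfl (fun x _ => mul_log_mul _ _)
  rw [h1, h2, h3]
  ring

lemma Jf_one (M : ℝ) (A : Finset (ι → Bool)) (F : Finset ι) (hμ : ∀ x, 0 ≤ μ x) :
    Jf M A F μ = ∑ x, μ x * Wp M A F μ x - 1 / 2 * (F.card * Real.log 2) := by
  have h := Jf_mul M A F hμ (k := fun _ => (1 : ℝ)) (fun _ => zero_le_one)
  simp only [one_mul] at h
  rw [h]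
  have : Bf A F μ (fun _ => (1 : ℝ)) = 0 := by
    unfold Bf rem
    refine Finset.sum_eq_zero (fun j _ => Finset.sum_eq_zero (fun x _ => ?_))
    split_ifs <;> simp
  rw [this]
  simp

/-- probabilities supported on `S`. -/
def PS (S : Finset (ι → Bool)) : Set ((ι → Bool) → ℝ) :=
  {μ | (∀ x, 0 ≤ μ x) ∧ ∑ x, μ x = 1 ∧ ∀ x, x ∉ S → μ x = 0}

lemma sum_mul_log_nonneg (hμ : ∀ x, 0 ≤ μ x) (hm : ∑ x, μ x = 1) {k : (ι → Bool) → ℝ}
    (hk : ∀ x, 0 ≤ k x) (hkm : ∑ x, μ x * k x = 1) :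
    0 ≤ ∑ x, μ x * (k x * Real.log (k x)) := by
  have h1 : ∑ x, μ x * (k x - 1) = 0 := by
    have : ∑ x, μ x * (k x - 1) = ∑ x, μ x * k x - ∑ x, μ x := by
      rw [← Finset.sum_sub_distrib]
      exact Finset.sum_congr rfl (fun x _ => by ring)
    rw [this, hkm, hm]; ring
  rw [← h1]
  refine Finset.sum_le_sum (fun x _ => mul_le_mul_of_nonneg_left ?_ (hμ x))
  rcases (hk x).eq_or_lt with h0 | hpos
  · rw [← h0]; simp
  · have h2 := Real.log_le_sub_one_of_pos (inv_pos.2 hpos)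
    rw [Real.log_inv] at h2
    have h3 : k x * (k x)⁻¹ = 1 := mul_inv_cancel₀ hpos.ne'
    nlinarith

/-- Euler-Lagrange, one sided. -/
lemma euler_lagrange {M : ℝ} (hM : 0 ≤ M) {A S : Finset (ι → Bool)} {F : Finset ι}
    (hP : μ ∈ PS S) (hmin : ∀ ν ∈ PS S, Jf M A F μ ≤ Jf M A F ν)
    (v : (ι → Bool) → ℝ) (hv : ∑ x, μ x * v x = 0) :
    ∑ x, μ x * (v x * Wp M A F μ x) ≤ 0 := by
  obtain ⟨hμ, hm, hS⟩ := hP
  by_contra hc
  push Not at hc
  set X := ∑ x, μ x * (v x * Wp M A F μ x) with hX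
  -- uniform bound of v
  obtain ⟨K, hK⟩ : ∃ K : ℝ, ∀ x, |v x| ≤ K :=
    ⟨∑ y, |v y|, fun x => Finset.single_le_sum (f := fun y => |v y|)
      (fun y _ => abs_nonneg _) (Finset.mem_univ x)⟩
  set B1 : ℝ := ∑ j ∈ F, ∑ x, 1 / 2 * (8 * μ x ^ 2 * μ (fl j x) ^ 2 * (v x - v (fl j x)) ^ 2
    / (μ x + μ (fl j x)) ^ 3) with hB1
  have hB1n : 0 ≤ B1 := by
    refine Finset.sum_nonneg (fun j _ => Finset.sum_nonneg (fun x _ => ?_))
    have := hμ x
    have := hμ (fl j x)
    positivity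
  have hKn : 0 ≤ K := (abs_nonneg _).trans (hK (fun _ => false))
  have main : ∀ r : ℝ, 0 < r → r * K ≤ 1 / 2 → r * X ≤ M * (r ^ 2 * B1) := by
    intro r hr hrK
    set k : (ι → Bool) → ℝ := fun x => 1 - r * v x with hk
    have hkge : ∀ x, 1 / 2 ≤ k x := by
      intro x
      have h1 : r * v x ≤ r * K := mul_le_mul_of_nonneg_left ((le_abs_self _).trans (hK x)) hr.le
      simp only [hk]; linarith
    have hk0 : ∀ x, 0 ≤ k x := fun x => by linarith [hkge x]
    have hkm : ∑ x, μ x * k x = 1 := by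
      have : ∑ x, μ x * k x = ∑ x, μ x - r * ∑ x, μ x * v x := by
        rw [Finset.mul_sum, ← Finset.sum_sub_distrib]
        exact Finset.sum_congr rfl (fun x _ => by simp only [hk]; ring)
      rw [this, hm, hv]; ring
    have hkP : (fun x => k x * μ x) ∈ PS S := by
      refine ⟨fun x => mul_nonneg (hk0 x) (hμ x), ?_, fun x hx => by
        show k x * μ x = 0
        rw [hS x hx, mul_zero]⟩
      rw [← hkm]
      exact Finset.sum_congr rfl (fun x _ => mul_comm _ _)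
    have h1 := hmin _ hkP
    rw [Jf_mul M A F hμ hk0, Jf_one M A F hμ] at h1
    have h2 := sum_mul_log_nonneg hμ hm hk0 hkm
    have h3 : ∑ x, μ x * (k x * Wp M A F μ x) = ∑ x, μ x * Wp M A F μ x - r * X := by
      rw [hX, Finset.mul_sum, ← Finset.sum_sub_distrib]
      exact Finset.sum_congr rfl (fun x _ => by simp only [hk]; ring)
    have h4 : Bf A F μ k ≤ r ^ 2 * B1 := by
      rw [hB1, Finset.mul_sum]
      unfold Bf
      refine Finset.sum_le_sum (fun j _ => ?_)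
      rw [Finset.mul_sum]
      refine Finset.sum_le_sum (fun x _ => ?_)
      have h5 := rem_small (v := -v x) (v' := -v (fl j x)) (r := r)
        (hμ x) (hμ (fl j x)) (hkge x) (hkge (fl j x))
        (by simp only [hk]; ring)
      have h6 : (-v x - -v (fl j x)) ^ 2 = (v x - v (fl j x)) ^ 2 := by ring
      rw [h6] at h5
      split_ifs
      · linarith
      · have := hμ x
        have := hμ (fl j x)
        have : 0 ≤ r ^ 2 * (1 / 2 * (8 * μ x ^ 2 * μ (fl j x) ^ 2 * (v x - v (fl j x)) ^ 2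
            / (μ x + μ (fl j x)) ^ 3)) := by positivity
        linarith
    have h7 : M * Bf A F μ k ≤ M * (r ^ 2 * B1) := mul_le_mul_of_nonneg_left h4 hM
    rw [h3] at h1
    linarith
  -- choose r
  set r : ℝ := min (1 / (2 * (K + 1))) (X / (2 * (M * B1 + 1))) with hr
  have hMB : 0 ≤ M * B1 := mul_nonneg hM hB1n
  have hrpos : 0 < r := lt_min (by positivity) (by positivity)
  have hr1 : r ≤ 1 / (2 * (K + 1)) := min_le_left _ _
  have hr2 : r ≤ X / (2 * (M * B1 + 1)) := min_le_right _ _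
  have hrK : r * K ≤ 1 / 2 := by
    have : r * K ≤ 1 / (2 * (K + 1)) * K := mul_le_mul_of_nonneg_right hr1 hKn
    refine this.trans ?_
    rw [div_mul_eq_mul_div, one_mul, div_le_iff₀ (by positivity)]
    linarith
  have h1 := main r hrpos hrK
  have h2 : X ≤ M * B1 * r := by
    have : r * X ≤ r * (M * B1 * r) := by linarith [h1, show M * (r ^ 2 * B1) = r * (M * B1 * r) by ring]
    exact le_of_mul_le_mul_left this hrpos
  rw [le_div_iff₀ (by positivity)] at hr2
  nlinarith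

/-- the log-Sobolev inequality at a minimizer. -/
lemma lsi {M : ℝ} (hM : 0 ≤ M) {A S : Finset (ι → Bool)} {F : Finset ι}
    (hP : μ ∈ PS S) (hmin : ∀ ν ∈ PS S, Jf M A F μ ≤ Jf M A F ν)
    (h : (ι → Bool) → ℝ) (hpos : 0 < nsq μ h) :
    1 / 2 * (∑ x, μ x * (h x ^ 2 * Real.log (h x ^ 2)) - nsq μ h * Real.log (nsq μ h))
      ≤ 8 * M * ∑ j ∈ F, en μ j h := by
  have hP' := hP
  obtain ⟨hμ, hm, hS⟩ := hP
  set m := nsq μ h with hmdef
  set k : (ι → Bool) → ℝ := fun x => (h x / Real.sqrt m) ^ 2 with hk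
  have hsq : Real.sqrt m ^ 2 = m := Real.sq_sqrt hpos.le
  have hkx : ∀ x, k x = h x ^ 2 / m := fun x => by
    simp only [hk]; rw [div_pow, hsq]
  have hk0 : ∀ x, 0 ≤ k x := fun x => sq_nonneg _
  have hkm : ∑ x, μ x * k x = 1 := by
    have : ∑ x, μ x * k x = m / m := by
      rw [hmdef]
      unfold nsq
      rw [Finset.sum_div]
      refine Finset.sum_congr rfl (fun x _ => ?_)
      rw [hkx x, hmdef]
      unfold nsq
      ring
    rw [this, div_self hpos.ne']
  have hkP : (fun x => k x * μ x) ∈ PS S := by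
    refine ⟨fun x => mul_nonneg (hk0 x) (hμ x), ?_, fun x hx => by
      show k x * μ x = 0
      rw [hS x hx, mul_zero]⟩
    rw [← hkm]
    exact Finset.sum_congr rfl (fun x _ => mul_comm _ _)
  have h1 := hmin _ hkP
  rw [Jf_mul M A F hμ hk0, Jf_one M A F hμ] at h1
  have h2 := euler_lagrange hM hP' hmin (fun x => k x - 1) (by
    have : ∑ x, μ x * (k x - 1) = ∑ x, μ x * k x - ∑ x, μ x := by
      rw [← Finset.sum_sub_distrib]
      exact Finset.sum_congr rfl (fun x _ => by ring)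
    rw [this, hkm, hm]; ring)
  have h3 : ∑ x, μ x * ((k x - 1) * Wp M A F μ x)
      = ∑ x, μ x * (k x * Wp M A F μ x) - ∑ x, μ x * Wp M A F μ x := by
    rw [← Finset.sum_sub_distrib]
    exact Finset.sum_congr rfl (fun x _ => by ring)
  rw [h3] at h2
  have h4 : Bf A F μ k ≤ 8 * ∑ j ∈ F, en μ j h / m := by
    unfold Bf
    rw [Finset.mul_sum]
    refine Finset.sum_le_sum (fun j _ => ?_)
    unfold en
    rw [Finset.sum_div, Finset.mul_sum]
    refine Finset.sum_le_sum (fun x _ => ?_)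
    have h5 := rem_le (h := h x / Real.sqrt m) (h' := h (fl j x) / Real.sqrt m)
      (hμ x) (hμ (fl j x))
    have h6 : (h x / Real.sqrt m - h (fl j x) / Real.sqrt m) ^ 2
        = (h x - h (fl j x)) ^ 2 / m := by
      rw [← sub_div, div_pow, hsq]
    rw [h6] at h5
    have h7 : 0 ≤ 8 * (μ x * μ (fl j x) / (μ x + μ (fl j x))) * ((h x - h (fl j x)) ^ 2 / m) := by
      have := hμ x
      have := hμ (fl j x)
      positivity
    have h8 : 8 * (1 / 2 * (μ x * μ (fl j x) / (μ x + μ (fl j x))) * (h x - h (fl j x)) ^ 2 / m)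
        = 1 / 2 * (8 * (μ x * μ (fl j x) / (μ x + μ (fl j x))) * ((h x - h (fl j x)) ^ 2 / m)) := by
      ring
    rw [h8]
    apply mul_le_mul_of_nonneg_left _ (by norm_num : (0:ℝ) ≤ 1 / 2)
    split_ifs
    · exact h5
    · exact h7
  have h9 : ∑ x, μ x * (k x * Real.log (k x))
      = (∑ x, μ x * (h x ^ 2 * Real.log (h x ^ 2)) - m * Real.log m) / m := by
    have e1 : ∀ x, μ x * (k x * Real.log (k x))
        = μ x * (h x ^ 2 * Real.log (h x ^ 2)) / m - μ x * (h x) ^ 2 * (Real.log m / m) := by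
      intro x
      rw [hkx x]
      by_cases hx : h x = 0
      · rw [hx]; simp
      · rw [Real.log_div (by positivity) hpos.ne']; ring
    rw [Finset.sum_congr rfl (fun x _ => e1 x), Finset.sum_sub_distrib, ← Finset.sum_div,
      ← Finset.sum_mul]
    have e2 : ∑ x, μ x * (h x) ^ 2 = m := rfl
    rw [e2]
    field_simp
  have h10 : M * Bf A F μ k ≤ M * (8 * ∑ j ∈ F, en μ j h / m) := mul_le_mul_of_nonneg_left h4 hM
  have h11 : 1 / 2 * ((∑ x, μ x * (h x ^ 2 * Real.log (h x ^ 2)) - m * Real.log m) / m)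
      ≤ M * (8 * ∑ j ∈ F, en μ j h / m) := by
    rw [← h9]; linarith
  have h12 : M * (8 * ∑ j ∈ F, en μ j h / m) = (8 * M * ∑ j ∈ F, en μ j h) / m := by
    rw [← Finset.sum_div]; ring
  rw [h12, ← mul_div_assoc] at h11
  exact (div_le_div_iff_of_pos_right hpos).1 h11

end Pool.Agent.TH385.KK
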