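import Pool.Agent.TH385.KK.LSI

/-!
Existence of a minimizer of the functional.
-/

set_option autoImplicit false
set_option linter.unusedSectionVars false

noncomputable section

namespace Pool.Agent.TH385.KK

open Finset

variable {ι : Type*} [Fintype ι] [DecidableEq ι]

lemma psi_le {a b : ℝ} (ha : 0 ≤ a) (hb : 0 ≤ b) : psi a b ≤ a + b := by
  unfold psi
  rcases (add_nonneg ha hb).eq_or_lt with h | h
  · rw [← h]; simp
  · rw [div_le_iff₀ h]; nlinarith [mul_nonneg ha hb]

lemma continuousOn_psi : ContinuousOn (fun p : ℝ × ℝ => psi p.1 p.2)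
    {p | 0 ≤ p.1 ∧ 0 ≤ p.2} := by
  intro p hp
  by_cases hz : p.1 + p.2 = 0
  · have h1 : p.1 = 0 := by linarith [hp.1, hp.2]
    have h2 : p.2 = 0 := by linarith [hp.1, hp.2]
    have h0 : psi p.1 p.2 = 0 := by unfold psi; rw [h1, h2]; simp
    have h0' : (fun p : ℝ × ℝ => psi p.1 p.2) p = 0 := h0
    unfold ContinuousWithinAt
    rw [h0']
    have hlim : Filter.Tendsto (fun q : ℝ × ℝ => q.1 + q.2) (nhdsWithin p {p | 0 ≤ p.1 ∧ 0 ≤ p.2})
        (nhds 0) := by
      have : ContinuousAt (fun q : ℝ × ℝ => q.1 + q.2) p := by fun_prop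
      have h3 := this.tendsto.mono_left (nhdsWithin_le_nhds (s := {p | 0 ≤ p.1 ∧ 0 ≤ p.2}))
      rwa [hz] at h3
    refine squeeze_zero' ?_ ?_ hlim
    · filter_upwards [self_mem_nhdsWithin] with q hq
      exact psi_nonneg hq.1 hq.2
    · filter_upwards [self_mem_nhdsWithin] with q hq
      exact psi_le hq.1 hq.2
  · apply ContinuousAt.continuousWithinAt
    unfold psi
    have h1 : ContinuousAt (fun q : ℝ × ℝ => (q.1 - q.2) ^ 2) p := by fun_prop
    have h2 : ContinuousAt (fun q : ℝ × ℝ => q.1 + q.2) p := by fun_prop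
    exact h1.div h2 hz

lemma isCompact_PS (S : Finset (ι → Bool)) : IsCompact (PS S) := by
  have h1 : PS S = stdSimplex ℝ (ι → Bool) ∩ {μ | ∀ x, x ∉ S → μ x = 0} := by
    ext μ
    simp only [PS, stdSimplex, Set.mem_ofPred_eq, Set.mem_inter_iff]
    tauto
  rw [h1]
  apply (isCompact_stdSimplex ℝ (ι → Bool)).inter_right
  have : {μ : (ι → Bool) → ℝ | ∀ x, x ∉ S → μ x = 0}
      = ⋂ x, ⋂ (_ : x ∉ S), {μ | μ x = 0} := by
    ext μ; simp
  rw [this]
  refine isClosed_iInter (fun x => isClosed_iInter (fun _ => ?_))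
  exact isClosed_eq (continuous_apply x) continuous_const

lemma continuousOn_Jf (M : ℝ) (A S : Finset (ι → Bool)) (F : Finset ι) :
    ContinuousOn (Jf M A F) (PS S) := by
  unfold Jf hard soft
  apply ContinuousOn.sub
  · apply continuousOn_finsetSum
    intro j _
    apply ContinuousOn.add
    · apply Continuous.continuousOn
      fun_prop
    · apply ContinuousOn.mul continuousOn_const
      apply continuousOn_finsetSum
      intro x _
      apply ContinuousOn.mul continuousOn_const
      by_cases h : x ∈ A ∧ fl j x ∈ A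
      · simp only [h, and_self, if_true]
        have hc : ContinuousOn (fun μ : (ι → Bool) → ℝ => (μ x, μ (fl j x))) (PS S) := by
          apply Continuous.continuousOn
          fun_prop
        exact continuousOn_psi.comp hc (fun μ hμ => ⟨hμ.1 x, hμ.1 _⟩)
      · simp only [h, if_false]
        exact continuousOn_const
  · apply Continuous.continuousOn
    have : Continuous (fun μ : (ι → Bool) → ℝ => ∑ x, μ x * Real.log (μ x)) := by
      apply continuous_finsetSum
      intro x _
      exact Real.continuous_mul_log.comp (continuous_apply x)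
    fun_prop

lemma exists_min (M : ℝ) (A S : Finset (ι → Bool)) (F : Finset ι) (hS : (PS S).Nonempty) :
    ∃ μ ∈ PS S, ∀ ν ∈ PS S, Jf M A F μ ≤ Jf M A F ν := by
  obtain ⟨μ, hμ, h⟩ := (isCompact_PS S).exists_isMinOn hS (continuousOn_Jf M A S F)
  exact ⟨μ, hμ, fun ν hν => h hν⟩

end Pool.Agent.TH385.KK
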