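import Pool.Agent.TH385.KK.Key
import Pool.Agent.TH385.KK.Mini

/-!
Restricting a measure to a half cube.
-/

set_option autoImplicit false
set_option linter.unusedSectionVars false

noncomputable section

namespace Pool.Agent.TH385.KK

open Finset

variable {ι : Type*} [Fintype ι] [DecidableEq ι]
variable {μ : (ι → Bool) → ℝ}

/-- restriction to `x i = b`. -/
def res (μ : (ι → Bool) → ℝ) (i : ι) (b : Bool) (x : ι → Bool) : ℝ := if x i = b then μ x else 0

/-- homogeneous version of the functional. -/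
def Jh (M : ℝ) (A : Finset (ι → Bool)) (F : Finset ι) (ν : (ι → Bool) → ℝ) : ℝ :=
  ∑ j ∈ F, (hard A ν j + M * soft A ν j)
    - 1 / 2 * (∑ x, ν x * Real.log (ν x) - (∑ x, ν x) * Real.log (∑ x, ν x)
      + (∑ x, ν x) * (F.card * Real.log 2))

lemma psi_smul {s : ℝ} (a b : ℝ) : psi (s * a) (s * b) = s * psi a b := by
  unfold psi
  by_cases hs : s = 0
  · rw [hs]; simp
  by_cases hab : a + b = 0
  · rw [← mul_add, hab]; simp
  · rw [← mul_add]; field_simp

lemma hard_smul (A : Finset (ι → Bool)) (s : ℝ) (ν : (ι → Bool) → ℝ) (j : ι) :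
    hard A (fun x => s * ν x) j = s * hard A ν j := by
  unfold hard
  rw [Finset.mul_sum]
  exact Finset.sum_congr rfl (fun x _ => by ring)

lemma soft_smul (A : Finset (ι → Bool)) (s : ℝ) (ν : (ι → Bool) → ℝ) (j : ι) :
    soft A (fun x => s * ν x) j = s * soft A ν j := by
  unfold soft
  rw [Finset.mul_sum]
  refine Finset.sum_congr rfl (fun x _ => ?_)
  split_ifs
  · rw [psi_smul]; ring
  · ring

lemma Jf_normalize (M : ℝ) (A : Finset (ι → Bool)) (F : Finset ι) {ν : (ι → Bool) → ℝ}
    (hp : 0 < ∑ x, ν x) :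
    (∑ x, ν x) * Jf M A F (fun x => (∑ x, ν x)⁻¹ * ν x) = Jh M A F ν := by
  set p := ∑ x, ν x with hpdef
  unfold Jf Jh
  rw [← hpdef]
  have h1 : ∑ j ∈ F, (hard A (fun x => p⁻¹ * ν x) j + M * soft A (fun x => p⁻¹ * ν x) j)
      = p⁻¹ * ∑ j ∈ F, (hard A ν j + M * soft A ν j) := by
    rw [Finset.mul_sum]
    refine Finset.sum_congr rfl (fun j _ => ?_)
    rw [hard_smul, soft_smul]; ring
  have h2 : ∑ x, p⁻¹ * ν x * Real.log (p⁻¹ * ν x)
      = p⁻¹ * ∑ x, ν x * Real.log (ν x) - Real.log p := by
    have e1 : ∀ x, p⁻¹ * ν x * Real.log (p⁻¹ * ν x)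
        = p⁻¹ * (ν x * Real.log (ν x)) - (p⁻¹ * Real.log p) * ν x := by
      intro x
      by_cases hx : ν x = 0
      · rw [hx]; simp
      · rw [Real.log_mul (inv_ne_zero hp.ne') hx, Real.log_inv]; ring
    rw [Finset.sum_congr rfl (fun x _ => e1 x), Finset.sum_sub_distrib, ← Finset.mul_sum,
      ← Finset.mul_sum, ← hpdef]
    field_simp
  rw [h1, h2]
  field_simp

lemma hard_res (A : Finset (ι → Bool)) (μ : (ι → Bool) → ℝ) (i j : ι) :
    hard A (res μ i true) j + hard A (res μ i false) j = hard A μ j := by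
  unfold hard res
  rw [← Finset.sum_add_distrib]
  refine Finset.sum_congr rfl (fun x _ => ?_)
  cases x i <;> simp

lemma soft_res (A : Finset (ι → Bool)) (μ : (ι → Bool) → ℝ) {i j : ι} (hij : i ≠ j) :
    soft A (res μ i true) j + soft A (res μ i false) j = soft A μ j := by
  unfold soft res
  rw [← Finset.sum_add_distrib]
  refine Finset.sum_congr rfl (fun x _ => ?_)
  rw [fl_ne hij]
  have h0 : psi 0 0 = 0 := by unfold psi; simp
  cases x i <;> simp [h0]

lemma sum_res (μ : (ι → Bool) → ℝ) (i : ι) :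
    ∑ x, res μ i true x + ∑ x, res μ i false x = ∑ x, μ x := by
  unfold res
  rw [← Finset.sum_add_distrib]
  refine Finset.sum_congr rfl (fun x _ => ?_)
  cases x i <;> simp

lemma sum_log_res (μ : (ι → Bool) → ℝ) (i : ι) :
    ∑ x, res μ i true x * Real.log (res μ i true x)
      + ∑ x, res μ i false x * Real.log (res μ i false x) = ∑ x, μ x * Real.log (μ x) := by
  unfold res
  rw [← Finset.sum_add_distrib]
  refine Finset.sum_congr rfl (fun x _ => ?_)
  cases x i <;> simp

lemma mr_singleton (μ : (ι → Bool) → ℝ) (i : ι) (x : ι → Bool) :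
    mr μ {i} x = ∑ y, res μ i (x i) y := by
  unfold mr ag res
  refine Finset.sum_congr rfl (fun y _ => ?_)
  by_cases h : x i = y i
  · have : ∀ k ∈ ({i} : Finset ι), x k = y k := by simpa using h
    rw [if_pos this, if_pos h.symm, one_mul]
  · have : ¬ ∀ k ∈ ({i} : Finset ι), x k = y k := by simpa using h
    rw [if_neg this, if_neg (fun e => h e.symm), zero_mul]

lemma DR_singleton (μ : (ι → Bool) → ℝ) (i : ι) :
    DR μ {i} = (∑ x, res μ i true x) * Real.log (∑ x, res μ i true x)
      + (∑ x, res μ i false x) * Real.log (∑ x, res μ i false x) + Real.log 2 := by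
  unfold DR
  rw [Finset.sum_mul, Finset.sum_mul, ← Finset.sum_add_distrib]
  simp only [Finset.card_singleton, Nat.cast_one, one_mul]
  congr 1
  refine Finset.sum_congr rfl (fun x _ => ?_)
  rw [mr_singleton]
  unfold res
  cases x i <;> simp

/-- the restriction inequality. -/
lemma sum_Jh_res {M : ℝ} (hM : 1 / 2 ≤ M) {A : Finset (ι → Bool)} {F : Finset ι} {i : ι}
    (hi : i ∈ F) (hμ : ∀ x, 0 ≤ μ x) (hA : ∀ x, x ∉ A → μ x = 0) (hm : ∑ x, μ x = 1) :
    Jh M A (F.erase i) (res μ i true) + Jh M A (F.erase i) (res μ i false)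
      ≤ Jf M A F μ - 1 / 2 * hard A μ i := by
  have h1 := DR_insert_le hμ hm (Finset.notMem_empty i)
  have h2 := nsq_ce_chi_le A hμ hA (Finset.notMem_empty i)
  rw [insert_empty_eq, DR_empty hm, DR_singleton] at h1
  have h3 : ∑ j ∈ F.erase i, (hard A (res μ i true) j + M * soft A (res μ i true) j)
      + ∑ j ∈ F.erase i, (hard A (res μ i false) j + M * soft A (res μ i false) j)
      = ∑ j ∈ F, (hard A μ j + M * soft A μ j) - (hard A μ i + M * soft A μ i) := by
    rw [← Finset.add_sum_erase F _ hi, ← Finset.sum_add_distrib, add_sub_cancel_left]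
    refine Finset.sum_congr rfl (fun j hj => ?_)
    have hij : i ≠ j := fun e => (Finset.ne_of_mem_erase hj) e.symm
    rw [← hard_res A μ i j, ← soft_res A μ hij]; ring
  have h4 := sum_log_res μ i
  have h5 := sum_res μ i
  rw [hm] at h5
  have hcard : ((F.erase i).card : ℝ) = F.card - 1 := by
    rw [Finset.card_erase_of_mem hi, Nat.cast_sub (Finset.card_pos.2 ⟨i, hi⟩)]; simp
  unfold Jh Jf
  rw [hcard]
  have hs := soft_nonneg A hμ i
  set p := ∑ x, res μ i true x
  set q := ∑ x, res μ i false x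
  have h6 : p * ((F.card - 1) * Real.log 2) + q * ((F.card - 1) * Real.log 2)
      = (F.card - 1) * Real.log 2 := by rw [← add_mul, h5, one_mul]
  nlinarith

/-- the support of the subcube part of `A`. -/
def supp (A : Finset (ι → Bool)) (F : Finset ι) (c : ι → Bool) : Finset (ι → Bool) :=
  A.filter (fun x => ∀ i, i ∉ F → x i = c i)

lemma supp_subset (A : Finset (ι → Bool)) (F : Finset ι) (c : ι → Bool) : supp A F c ⊆ A :=
  Finset.filter_subset _ _

lemma DR_eq {A : Finset (ι → Bool)} {F : Finset ι} {c : ι → Bool} (hP : μ ∈ PS (supp A F c)) :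
    DR μ F = ∑ x, μ x * Real.log (μ x) + F.card * Real.log 2 := by
  obtain ⟨hμ, hm, hS⟩ := hP
  unfold DR
  congr 1
  refine Finset.sum_congr rfl (fun x _ => ?_)
  by_cases hx : μ x = 0
  · rw [hx]; simp
  · have hxS : x ∈ supp A F c := by
      by_contra h; exact hx (hS x h)
    have : mr μ F x = μ x := by
      unfold mr
      rw [Finset.sum_eq_single x]
      · rw [ag_self, one_mul]
      · intro y _ hne
        by_cases hy : μ y = 0
        · rw [hy, mul_zero]
        · have hyS : y ∈ supp A F c := by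
            by_contra h; exact hy (hS y h)
          have : ag F x y = 0 := by
            unfold ag
            rw [if_neg]
            intro hag
            apply hne
            funext i
            by_cases hi : i ∈ F
            · exact (hag i hi).symm
            · rw [(Finset.mem_filter.1 hyS).2 i hi, (Finset.mem_filter.1 hxS).2 i hi]
          rw [this, zero_mul]
      · intro h; simp at h
    rw [this]

lemma DR_ge {A : Finset (ι → Bool)} {F : Finset ι} {c : ι → Bool} (hP : μ ∈ PS (supp A F c)) :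
    F.card * Real.log 2 - Real.log (supp A F c).card ≤ DR μ F := by
  rw [DR_eq hP]
  obtain ⟨hμ, hm, hS⟩ := hP
  set S := supp A F c with hSdef
  have hSne : S.Nonempty := by
    by_contra h
    rw [Finset.not_nonempty_iff_eq_empty] at h
    have : ∑ x, μ x = 0 := Finset.sum_eq_zero (fun x _ => hS x (by rw [h]; simp))
    rw [this] at hm; norm_num at hm
  have hN : (0 : ℝ) < S.card := by exact_mod_cast Finset.card_pos.2 hSne
  set N : ℝ := (S.card : ℝ) with hNdef
  have hw : ∀ x : ι → Bool, (0:ℝ) ≤ (if x ∈ S then N⁻¹ else 0) := by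
    intro x; split_ifs <;> positivity
  have hwm : ∑ x : ι → Bool, (if x ∈ S then N⁻¹ else 0) = 1 := by
    rw [Finset.sum_ite_mem, Finset.univ_inter, Finset.sum_const, nsmul_eq_mul, ← hNdef]
    field_simp
  have e0 : ∀ x, (if x ∈ S then N⁻¹ else 0) * (N * μ x) = μ x := by
    intro x
    split_ifs with hx
    · field_simp
    · rw [hS x hx]; simp
  have h := sum_mul_log_nonneg hw hwm (k := fun x => N * μ x)
    (fun x => mul_nonneg hN.le (hμ x)) (by rw [Finset.sum_congr rfl (fun x _ => e0 x), hm])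
  have e1 : ∀ x, (if x ∈ S then N⁻¹ else 0) * (N * μ x * Real.log (N * μ x))
      = μ x * Real.log (μ x) + μ x * Real.log N := by
    intro x
    rw [← mul_assoc, e0 x]
    by_cases hx : μ x = 0
    · rw [hx]; simp
    · rw [Real.log_mul hN.ne' hx]; ring
  rw [Finset.sum_congr rfl (fun x _ => e1 x), Finset.sum_add_distrib, ← Finset.sum_mul, hm] at h
  linarith

lemma Jf_nonneg {M : ℝ} (hM : 1 / 2 ≤ M) {A : Finset (ι → Bool)} {F : Finset ι} {c : ι → Bool}
    (hP : μ ∈ PS (supp A F c)) : 0 ≤ Jf M A F μ := by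
  have hD := DR_eq hP
  obtain ⟨hμ, hm, hS⟩ := hP
  have hA : ∀ x, x ∉ A → μ x = 0 := fun x hx => hS x (fun h => hx (supp_subset A F c h))
  have h1 := DR_le A hμ hA hm F
  unfold Jf
  rw [← hD]
  have h2 : ∑ j ∈ F, (hard A μ j + M * soft A μ j)
      - 1 / 2 * ∑ j ∈ F, (hard A μ j + soft A μ j)
      = ∑ j ∈ F, (1 / 2 * hard A μ j + (M - 1 / 2) * soft A μ j) := by
    rw [Finset.mul_sum, ← Finset.sum_sub_distrib]
    exact Finset.sum_congr rfl (fun j _ => by ring)
  have h3 : 0 ≤ ∑ j ∈ F, (1 / 2 * hard A μ j + (M - 1 / 2) * soft A μ j) := by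
    refine Finset.sum_nonneg (fun j _ => ?_)
    have := hard_nonneg A hμ j
    have := soft_nonneg A hμ j
    have : 0 ≤ M - 1 / 2 := by linarith
    positivity
  linarith

lemma res_mem {A : Finset (ι → Bool)} {F : Finset ι} {c : ι → Bool} (hP : μ ∈ PS (supp A F c))
    (i : ι) (b : Bool) (hp : 0 < ∑ x, res μ i b x) :
    (fun x => (∑ x, res μ i b x)⁻¹ * res μ i b x)
      ∈ PS (supp A (F.erase i) (Function.update c i b)) := by
  obtain ⟨hμ, hm, hS⟩ := hP
  refine ⟨fun x => ?_, ?_, fun x hx => ?_⟩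
  · show 0 ≤ (∑ x, res μ i b x)⁻¹ * res μ i b x
    have : 0 ≤ res μ i b x := by
      unfold res; split_ifs
      · exact hμ x
      · exact le_rfl
    positivity
  · rw [← Finset.mul_sum]; field_simp
  · show (∑ x, res μ i b x)⁻¹ * res μ i b x = 0
    have : res μ i b x = 0 := by
      unfold res
      split_ifs with hb
      · apply hS x
        intro hxS
        apply hx
        have h1 := Finset.mem_filter.1 hxS
        refine Finset.mem_filter.2 ⟨h1.1, fun j hj => ?_⟩
        by_cases hji : j = i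
        · rw [hji, Function.update_self, hb]
        · rw [Function.update_of_ne hji]
          exact h1.2 j (fun h => hj (Finset.mem_erase.2 ⟨hji, h⟩))
      · rfl
    rw [this, mul_zero]

/-- some half does at least as well as the average. -/
lemma exists_restrict {M : ℝ} (hM : 1 / 2 ≤ M) {A : Finset (ι → Bool)} {F : Finset ι}
    {c : ι → Bool} {i : ι} (hi : i ∈ F) (hP : μ ∈ PS (supp A F c)) :
    ∃ c' : ι → Bool, ∃ ν ∈ PS (supp A (F.erase i) c'),
      Jf M A (F.erase i) ν ≤ Jf M A F μ - 1 / 2 * hard A μ i := by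
  have hP' := hP
  obtain ⟨hμ, hm, hS⟩ := hP
  have hA : ∀ x, x ∉ A → μ x = 0 := fun x hx => hS x (fun h => hx (supp_subset A F c h))
  have hsum := sum_Jh_res hM hi hμ hA hm
  have hpq := sum_res μ i
  rw [hm] at hpq
  set J0 := Jf M A F μ - 1 / 2 * hard A μ i with hJ0
  have hres : ∀ b x, 0 ≤ res μ i b x := by
    intro b x; unfold res; split_ifs
    · exact hμ x
    · exact le_rfl
  by_contra hc
  push Not at hc
  have hb : ∀ b, (∑ x, res μ i b x) * J0 ≤ Jh M A (F.erase i) (res μ i b) ∧
      (0 < ∑ x, res μ i b x → (∑ x, res μ i b x) * J0 < Jh M A (F.erase i) (res μ i b)) := by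
    intro b
    have hlt : 0 < ∑ x, res μ i b x →
        (∑ x, res μ i b x) * J0 < Jh M A (F.erase i) (res μ i b) := by
      intro hp
      rw [← Jf_normalize M A (F.erase i) hp]
      exact mul_lt_mul_of_pos_left (hc _ _ (res_mem hP' i b hp)) hp
    refine ⟨?_, hlt⟩
    rcases (Finset.sum_nonneg (fun x (_ : x ∈ Finset.univ) => hres b x)).eq_or_lt with h0 | hp
    · have hz : ∀ x, res μ i b x = 0 := by
        intro x
        exact (Finset.sum_eq_zero_iff_of_nonneg (fun x _ => hres b x)).1 h0.symm x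
          (Finset.mem_univ x)
      have hz' : res μ i b = fun _ => (0:ℝ) := funext hz
      rw [hz']
      unfold Jh hard soft psi
      simp
    · exact (hlt hp).le
  have ht := hb true
  have hf := hb false
  have hJ : (∑ x, res μ i true x) * J0 + (∑ x, res μ i false x) * J0 = J0 := by
    rw [← add_mul, hpq, one_mul]
  rcases (Finset.sum_nonneg (fun x (_ : x ∈ Finset.univ) => hres true x)).eq_or_lt with h0 | hp
  · have : 0 < ∑ x, res μ i false x := by linarith
    have := hf.2 this
    linarith [ht.1]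
  · have := ht.2 hp
    linarith [hf.1]

end Pool.Agent.TH385.KK
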